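import Mathlib

/-!
NGN, part D: monotonicity from the derivative, polynomial bounds for `arctan`.
-/

set_option autoImplicit false

namespace Pool.Agent.NGN

open Real Set

theorem le_of_deriv_nonneg {f f' : ℝ → ℝ} {a b : ℝ} (hab : a ≤ b)
    (hf : ∀ x ∈ Icc a b, HasDerivAt f (f' x) x) (h : ∀ x ∈ Icc a b, 0 ≤ f' x) : f a ≤ f b := by
  have hm : MonotoneOn f (Icc a b) := by
    apply monotoneOn_of_deriv_nonneg (convex_Icc a b)
    · exact fun x hx => (hf x hx).continuousAt.continuousWithinAt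
    · intro x hx
      rw [interior_Icc] at hx
      exact (hf x (Ioo_subset_Icc_self hx)).differentiableAt.differentiableWithinAt
    · intro x hx
      rw [interior_Icc] at hx
      rw [(hf x (Ioo_subset_Icc_self hx)).deriv]
      exact h x (Ioo_subset_Icc_self hx)
  exact hm (left_mem_Icc.2 hab) (right_mem_Icc.2 hab) hab

theorem hasDerivAt_poly5 (a b c x : ℝ) :
    HasDerivAt (fun x : ℝ => a * x + b * x ^ 3 + c * x ^ 5) (a + b * (3 * x ^ 2) + c * (5 * x ^ 4))
      x := by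
  have h1 : HasDerivAt (fun x : ℝ => a * x) a x := by
    simpa using (hasDerivAt_id x).const_mul a
  have h2 : HasDerivAt (fun x : ℝ => b * x ^ 3) (b * (3 * x ^ 2)) x := by
    simpa using (hasDerivAt_pow 3 x).const_mul b
  have h3 : HasDerivAt (fun x : ℝ => c * x ^ 5) (c * (5 * x ^ 4)) x := by
    simpa using (hasDerivAt_pow 5 x).const_mul c
  exact (h1.add h2).add h3

theorem arctan_le_five {x : ℝ} (hx : 0 ≤ x) : arctan x ≤ x - x ^ 3 / 3 + x ^ 5 / 5 := by
  have key := le_of_deriv_nonneg (f := fun x => 1 * x + (-1 / 3) * x ^ 3 + (1 / 5) * x ^ 5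
      - arctan x) (f' := fun x => (1 + (-1 / 3) * (3 * x ^ 2) + (1 / 5) * (5 * x ^ 4))
      - 1 / (1 + x ^ 2)) hx
    (fun y _ => (hasDerivAt_poly5 _ _ _ y).sub (hasDerivAt_arctan y))
    (fun y _ => by
      have h1 : 0 < 1 + y ^ 2 := by positivity
      have h2 : (1 + (-1 / 3) * (3 * y ^ 2) + (1 / 5) * (5 * y ^ 4)) - 1 / (1 + y ^ 2) =
          y ^ 6 / (1 + y ^ 2) := by
        field_simp
        ring
      rw [h2]
      positivity)
  simp only [arctan_zero] at key
  linarith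

theorem arctan_ge_three {x : ℝ} (hx : 0 ≤ x) : x - x ^ 3 / 3 ≤ arctan x := by
  have key := le_of_deriv_nonneg (f := fun x => arctan x
      - (1 * x + (-1 / 3) * x ^ 3 + 0 * x ^ 5)) (f' := fun x => 1 / (1 + x ^ 2) -
      (1 + (-1 / 3) * (3 * x ^ 2) + 0 * (5 * x ^ 4))) hx
    (fun y _ => (hasDerivAt_arctan y).sub (hasDerivAt_poly5 _ _ _ y))
    (fun y _ => by
      have h1 : 0 < 1 + y ^ 2 := by positivity
      have h2 : 1 / (1 + y ^ 2) - (1 + (-1 / 3) * (3 * y ^ 2) + 0 * (5 * y ^ 4)) =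
          y ^ 4 / (1 + y ^ 2) := by
        field_simp
        ring
      rw [h2]
      positivity)
  simp only [arctan_zero] at key
  linarith

theorem arctan_le_self' {x : ℝ} (hx : 0 ≤ x) : arctan x ≤ x := by
  have key := le_of_deriv_nonneg (f := fun x => 1 * x + 0 * x ^ 3 + 0 * x ^ 5
      - arctan x) (f' := fun x => (1 + 0 * (3 * x ^ 2) + 0 * (5 * x ^ 4))
      - 1 / (1 + x ^ 2)) hx
    (fun y _ => (hasDerivAt_poly5 _ _ _ y).sub (hasDerivAt_arctan y))
    (fun y _ => by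
      have h1 : 0 < 1 + y ^ 2 := by positivity
      have h2 : (1 + 0 * (3 * y ^ 2) + 0 * (5 * y ^ 4)) - 1 / (1 + y ^ 2) =
          y ^ 2 / (1 + y ^ 2) := by
        field_simp
        ring
      rw [h2]
      positivity)
  simp only [arctan_zero] at key
  linarith

theorem arctan_le_seven {x : ℝ} (hx : 0 ≤ x) :
    x - x ^ 3 / 3 + x ^ 5 / 5 - x ^ 7 / 7 ≤ arctan x := by
  have key := le_of_deriv_nonneg (f := fun x => arctan x
      - (1 * x + (-1 / 3) * x ^ 3 + (1 / 5) * x ^ 5) + (1 / 7) * x ^ 7)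
      (f' := fun x => 1 / (1 + x ^ 2) -
      (1 + (-1 / 3) * (3 * x ^ 2) + (1 / 5) * (5 * x ^ 4)) + (1 / 7) * (7 * x ^ 6)) hx
    (fun y _ => by
      have h1 : HasDerivAt (fun x : ℝ => (1 / 7 : ℝ) * x ^ 7) ((1 / 7) * (7 * y ^ 6)) y := by
        simpa using (hasDerivAt_pow 7 y).const_mul (1 / 7 : ℝ)
      exact ((hasDerivAt_arctan y).sub (hasDerivAt_poly5 _ _ _ y)).add h1)
    (fun y _ => by
      have h1 : 0 < 1 + y ^ 2 := by positivity
      have h2 : 1 / (1 + y ^ 2) - (1 + (-1 / 3) * (3 * y ^ 2) + (1 / 5) * (5 * y ^ 4))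
          + (1 / 7) * (7 * y ^ 6) = y ^ 8 / (1 + y ^ 2) := by
        field_simp
        ring
      rw [h2]
      positivity)
  simp only [arctan_zero] at key
  linarith

/-- Lower bound (second convergent of the continued fraction). -/
theorem arctan_ge_frac {x : ℝ} (hx : 0 ≤ x) : 3 * x / (3 + x ^ 2) ≤ arctan x := by
  have key := le_of_deriv_nonneg (f := fun x => arctan x - 3 * x / (3 + x ^ 2))
      (f' := fun x => 1 / (1 + x ^ 2) - (3 * (3 + x ^ 2) - 3 * x * (2 * x)) / (3 + x ^ 2) ^ 2) hx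
    (fun y _ => by
      have h1 : HasDerivAt (fun x : ℝ => 3 * x) 3 y := by
        simpa using (hasDerivAt_id y).const_mul (3 : ℝ)
      have h2 : HasDerivAt (fun x : ℝ => 3 + x ^ 2) (2 * y) y := by
        simpa using (hasDerivAt_pow 2 y).const_add (3 : ℝ)
      have h3 : (3 + y ^ 2) ≠ 0 := by positivity
      exact (hasDerivAt_arctan y).sub (h1.div h2 h3))
    (fun y _ => by
      have h1 : 0 < 1 + y ^ 2 := by positivity
      have h3 : 0 < 3 + y ^ 2 := by positivity
      have h2 : 1 / (1 + y ^ 2) - (3 * (3 + y ^ 2) - 3 * y * (2 * y)) / (3 + y ^ 2) ^ 2 =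
          4 * y ^ 4 / ((1 + y ^ 2) * (3 + y ^ 2) ^ 2) := by
        field_simp
        ring
      rw [h2]
      positivity)
  simp only [arctan_zero] at key
  norm_num at key
  linarith

/-- Lower bound (fourth convergent of the continued fraction). -/
theorem arctan_ge_frac4 {x : ℝ} (hx : 0 ≤ x) :
    (105 * x + 55 * x ^ 3) / (105 + 90 * x ^ 2 + 9 * x ^ 4) ≤ arctan x := by
  have key := le_of_deriv_nonneg (f := fun x => arctan x -
        (105 * x + 55 * x ^ 3) / (105 + 90 * x ^ 2 + 9 * x ^ 4))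
      (f' := fun x => 1 / (1 + x ^ 2) - ((105 + 55 * (3 * x ^ 2)) * (105 + 90 * x ^ 2 + 9 * x ^ 4) -
        (105 * x + 55 * x ^ 3) * (90 * (2 * x) + 9 * (4 * x ^ 3))) /
        (105 + 90 * x ^ 2 + 9 * x ^ 4) ^ 2) hx
    (fun y _ => by
      have h1 : HasDerivAt (fun x : ℝ => 105 * x + 55 * x ^ 3) (105 + 55 * (3 * y ^ 2)) y := by
        have a1 : HasDerivAt (fun x : ℝ => 105 * x) 105 y := by
          simpa using (hasDerivAt_id y).const_mul (105 : ℝ)
        have a2 : HasDerivAt (fun x : ℝ => 55 * x ^ 3) (55 * (3 * y ^ 2)) y := by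
          simpa using (hasDerivAt_pow 3 y).const_mul (55 : ℝ)
        exact a1.add a2
      have h2 : HasDerivAt (fun x : ℝ => 105 + 90 * x ^ 2 + 9 * x ^ 4)
          (90 * (2 * y) + 9 * (4 * y ^ 3)) y := by
        have a1 : HasDerivAt (fun x : ℝ => 105 + 90 * x ^ 2) (90 * (2 * y)) y := by
          simpa using ((hasDerivAt_pow 2 y).const_mul (90 : ℝ)).const_add (105 : ℝ)
        have a2 : HasDerivAt (fun x : ℝ => 9 * x ^ 4) (9 * (4 * y ^ 3)) y := by
          simpa using (hasDerivAt_pow 4 y).const_mul (9 : ℝ)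
        exact a1.add a2
      have h3 : (105 + 90 * y ^ 2 + 9 * y ^ 4) ≠ 0 := by positivity
      exact (hasDerivAt_arctan y).sub (h1.div h2 h3))
    (fun y _ => by
      have h1 : 0 < 1 + y ^ 2 := by positivity
      have h3 : 0 < 105 + 90 * y ^ 2 + 9 * y ^ 4 := by positivity
      have h2 : 1 / (1 + y ^ 2) - ((105 + 55 * (3 * y ^ 2)) * (105 + 90 * y ^ 2 + 9 * y ^ 4) -
          (105 * y + 55 * y ^ 3) * (90 * (2 * y) + 9 * (4 * y ^ 3))) /
          (105 + 90 * y ^ 2 + 9 * y ^ 4) ^ 2 =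
          576 * y ^ 8 / ((1 + y ^ 2) * (105 + 90 * y ^ 2 + 9 * y ^ 4) ^ 2) := by
        field_simp
        ring
      rw [h2]
      positivity)
  simp only [arctan_zero] at key
  norm_num at key
  linarith

end Pool.Agent.NGN
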