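import Mathlib

/-!
NGN, part D: the symmetric side with the same angle.
-/

namespace Pool.Agent.NGN

open Real

/-- For a side with half length parameter `lam` and foot offset `kap` there is a symmetric side
(parameter `al ≤ lam`, offset `0`) which is seen under the same angle; `kap ^ 2` is a rational
function of `lam` and `al`. -/
theorem exists_symside {τ lam : ℝ} (kap : ℝ) (hτ : 0 < τ) (hl : 0 < lam) :
    ∃ al : ℝ, 0 < al ∧ al ≤ lam ∧
      arctan (lam * τ + kap) + arctan (lam * τ - kap) = 2 * arctan (al * τ) ∧
      al * kap ^ 2 = (lam - al) * (1 + τ ^ 2 * al * lam) := by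
  set A := arctan (lam * τ + kap) with hA
  set B := arctan (lam * τ - kap) with hB
  have hlt : 0 < lam * τ := mul_pos hl hτ
  have hpos : 0 < A + B := by
    have h1 : arctan (-(lam * τ - kap)) < arctan (lam * τ + kap) :=
      arctan_strictMono (by linarith)
    rw [arctan_neg] at h1
    rw [hA, hB]
    linarith
  have hA2 := arctan_lt_pi_div_two (lam * τ + kap)
  have hB2 := arctan_lt_pi_div_two (lam * τ - kap)
  have hAlo := neg_pi_div_two_lt_arctan (lam * τ + kap)
  have hBlo := neg_pi_div_two_lt_arctan (lam * τ - kap)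
  have hcA : 0 < cos A := cos_arctan_pos _
  have hcB : 0 < cos B := cos_arctan_pos _
  set th := (A + B) / 2 with hth
  have hth0 : 0 < th := by rw [hth]; linarith
  have hth1 : th < π / 2 := by rw [hth]; linarith
  have hcos : 0 < cos th := cos_pos_of_mem_Ioo ⟨by linarith, hth1⟩
  have hsin : 0 < sin th := sin_pos_of_pos_of_lt_pi hth0 (by linarith [pi_pos])
  set T := tan th with hT
  have hTpos : 0 < T := tan_pos_of_pos_of_lt_pi_div_two hth0 hth1
  have hTarc : arctan T = th := arctan_tan (by linarith) hth1
  have hTs : sin th = T * cos th := by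
    rw [hT, tan_eq_sin_div_cos]
    field_simp
  have hsA : sin A = (lam * τ + kap) * cos A := by
    have h1 : tan A = lam * τ + kap := tan_arctan _
    rw [← h1, tan_eq_sin_div_cos]
    field_simp
  have hsB : sin B = (lam * τ - kap) * cos B := by
    have h1 : tan B = lam * τ - kap := tan_arctan _
    rw [← h1, tan_eq_sin_div_cos]
    field_simp
  have hs2 : sin (A + B) = 2 * sin th * cos th := by
    have h1 : A + B = 2 * th := by rw [hth]; ring
    rw [h1, sin_two_mul]
  have hc2 : cos (A + B) = cos th ^ 2 - sin th ^ 2 := by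
    have h1 : A + B = 2 * th := by rw [hth]; ring
    rw [h1, cos_two_mul']
  rw [sin_add, hsA, hsB] at hs2
  rw [cos_add, hsA, hsB] at hc2
  rw [hTs] at hs2 hc2
  have key : 2 * T * (1 - (lam * τ + kap) * (lam * τ - kap)) = 2 * (lam * τ) * (1 - T ^ 2) := by
    have e1 : (2 * (lam * τ)) * (cos A * cos B) = 2 * T * cos th ^ 2 := by linear_combination hs2
    have e2 : (1 - (lam * τ + kap) * (lam * τ - kap)) * (cos A * cos B) =
        (1 - T ^ 2) * cos th ^ 2 := by linear_combination hc2
    have hne : (cos A * cos B) * cos th ^ 2 ≠ 0 := by positivity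
    apply mul_right_cancel₀ hne
    linear_combination (2 * T * cos th ^ 2) * e2 - ((1 - T ^ 2) * cos th ^ 2) * e1
  refine ⟨T / τ, by positivity, ?_, ?_, ?_⟩
  · have h1 : (T / τ) * kap ^ 2 = (lam - T / τ) * (1 + τ ^ 2 * (T / τ) * lam) := by
      field_simp
      field_simp at key
      nlinarith [key]
    have h2 : 0 ≤ (T / τ) * kap ^ 2 := by positivity
    rw [h1] at h2
    have h3 : 0 < 1 + τ ^ 2 * (T / τ) * lam := by positivity
    by_contra hc
    push Not at hc
    have h4 : (lam - T / τ) * (1 + τ ^ 2 * (T / τ) * lam) < 0 :=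
      mul_neg_of_neg_of_pos (by linarith) h3
    linarith
  · have h1 : T / τ * τ = T := by field_simp
    rw [h1, hTarc, hth]
    ring
  · field_simp
    nlinarith [key]

end Pool.Agent.NGN
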