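import Pool.Agent.NGN.D.Defs
import Pool.Agent.NGN.D.Sym
import Pool.Agent.NGN.D.Arc

/-!
NGN, part D: the side inequality (H).
-/

set_option autoImplicit false

noncomputable section

namespace Pool.Agent.NGN

open Real

/-- A cubic polynomial without linear term is nonnegative on `[0, ∞)`. -/
theorem cubic_ge {A B C h : ℝ} (hA : 0 < A) (hB : 0 ≤ B) (hh : 0 ≤ h) :
    C - 4 * B ^ 3 / (27 * A ^ 2) ≤ A * h ^ 3 - B * h ^ 2 + C := by
  have e : A * h ^ 3 - B * h ^ 2 + C - (C - 4 * B ^ 3 / (27 * A ^ 2)) =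
      (3 * A * h - 2 * B) ^ 2 * (3 * A * h + B) / (27 * A ^ 2) := by
    field_simp
    ring
  have h1 : 0 ≤ (3 * A * h - 2 * B) ^ 2 * (3 * A * h + B) / (27 * A ^ 2) := by positivity
  linarith

/-- Lower bound for `LS`: `al` is the parameter of the symmetric side with the same angle. -/
theorem LS_ge {tau h ka la al : ℝ} (hh : 0 < h) (ha : 0 < al)
    (hal : al ≤ la) (ho : omS tau ka la = 2 * arctan (al * tau))
    (hk : al * ka ^ 2 = (la - al) * (1 + tau ^ 2 * al * la)) :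
    2 * qS tau * arctan (al * tau) + rS tau - (1 + tau ^ 2 / 3) ^ 3 * al ^ 2 /
      (2 * la * (1 + 4 / 3 * tau ^ 2 * al * la - tau ^ 2 * al ^ 2) ^ 2) ≤ LS tau h ka la := by
  have hl : 0 < la := lt_of_lt_of_le ha hal
  set c1 := 1 + 4 / 3 * tau ^ 2 * al * la - tau ^ 2 * al ^ 2 with hc1
  have hc1p : 1 ≤ c1 := by
    have h1 : tau ^ 2 * al * al ≤ tau ^ 2 * al * la :=
      mul_le_mul_of_nonneg_left hal (by positivity)
    nlinarith [mul_nonneg (sq_nonneg tau) (mul_pos ha ha).le]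
  have hc1q : 0 < c1 := by linarith
  have e : LS tau h ka la = la ^ 2 * c1 / al * h ^ 3 - 3 / 2 * (1 + tau ^ 2 / 3) * la * h ^ 2
      + (2 * qS tau * arctan (al * tau) + rS tau) := by
    unfold LS
    rw [ho]
    have h2 : h ^ 3 * la * (1 + ka ^ 2 + la ^ 2 * tau ^ 2 / 3) = la ^ 2 * c1 / al * h ^ 3 := by
      rw [hc1]
      field_simp
      linear_combination 3 * hk
    rw [h2]
    ring
  rw [e]
  refine le_trans (le_of_eq ?_) (cubic_ge (A := la ^ 2 * c1 / al)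
    (B := 3 / 2 * (1 + tau ^ 2 / 3) * la) (by positivity) (by positivity) hh.le)
  field_simp
  ring

/-- The derivative of `DA`. -/
def dDA (tau a : ℝ) : ℝ :=
  (a ^ 2 - 1) * tau ^ 2 * (27 + 36 * (tau ^ 2 + tau ^ 2 * a ^ 2) + tau ^ 4
      + 28 * tau ^ 2 * (tau ^ 2 * a ^ 2) + (tau ^ 2 * a ^ 2) ^ 2 * (1 - tau ^ 4)) /
    (2 * (1 + tau ^ 2 * a ^ 2) * (3 + tau ^ 2 * a ^ 2) ^ 3)

theorem hasDerivAt_DA {tau : ℝ} (h0 : 0 < tau) (a : ℝ) :
    HasDerivAt (DA tau) (dDA tau a) a := by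
  have h1 : HasDerivAt (fun a : ℝ => a * tau) tau a := by
    simpa using (hasDerivAt_id a).mul_const tau
  have h2 : HasDerivAt (fun a : ℝ => arctan (a * tau)) (1 / (1 + (a * tau) ^ 2) * tau) a :=
    h1.arctan
  have h3 : HasDerivAt (fun a : ℝ => 2 * qS tau * arctan (a * tau) + rS tau)
      (2 * qS tau * (1 / (1 + (a * tau) ^ 2) * tau)) a := (h2.const_mul _).add_const _
  have h4 : HasDerivAt (fun a : ℝ => a * (1 + tau ^ 2 / 3) ^ 3) (1 * (1 + tau ^ 2 / 3) ^ 3) a :=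
    (hasDerivAt_id a).mul_const _
  have h5 : HasDerivAt (fun a : ℝ => a ^ 2 * tau ^ 2 / 3) (2 * a * tau ^ 2 / 3) a := by
    have := ((hasDerivAt_pow 2 a).mul_const (tau ^ 2)).div_const 3
    simpa using this
  have h6 : HasDerivAt (fun a : ℝ => 2 * (1 + a ^ 2 * tau ^ 2 / 3) ^ 2)
      (2 * (2 * (1 + a ^ 2 * tau ^ 2 / 3) * (2 * a * tau ^ 2 / 3))) a := by
    have h7 : HasDerivAt (fun a : ℝ => 1 + a ^ 2 * tau ^ 2 / 3) (2 * a * tau ^ 2 / 3) a := by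
      simpa using h5.const_add 1
    have := (h7.pow 2).const_mul 2
    simpa using this
  have hne : (2 * (1 + a ^ 2 * tau ^ 2 / 3) ^ 2) ≠ 0 := by positivity
  have h8 := h3.sub (h4.div h6 hne)
  have e : dDA tau a = 2 * qS tau * (1 / (1 + (a * tau) ^ 2) * tau) -
      (1 * (1 + tau ^ 2 / 3) ^ 3 * (2 * (1 + a ^ 2 * tau ^ 2 / 3) ^ 2) -
        a * (1 + tau ^ 2 / 3) ^ 3 * (2 * (2 * (1 + a ^ 2 * tau ^ 2 / 3) * (2 * a * tau ^ 2 / 3)))) /
      (2 * (1 + a ^ 2 * tau ^ 2 / 3) ^ 2) ^ 2 := by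
    unfold dDA qS
    have p1 : (1 + tau ^ 2 * a ^ 2) ≠ 0 := by positivity
    have p2 : (3 + tau ^ 2 * a ^ 2) ≠ 0 := by positivity
    have p3 : 1 + a ^ 2 * tau ^ 2 / 3 = (3 + tau ^ 2 * a ^ 2) / 3 := by ring
    have p4 : 1 + (a * tau) ^ 2 = 1 + tau ^ 2 * a ^ 2 := by ring
    rw [p3, p4]
    field_simp
    ring
  rw [e]
  exact h8

theorem DA_one (tau : ℝ) : DA tau 1 = 0 := by
  unfold DA rS
  have : (1 + tau ^ 2 / 3) ≠ 0 := by positivity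
  rw [one_mul]
  field_simp
  ring

theorem DA_anti {tau : ℝ} (h0 : 0 < tau) (h1 : tau ≤ 1) {a b : ℝ} (ha : 0 ≤ a) (hab : a ≤ b)
    (hb : b ≤ 1) : DA tau b ≤ DA tau a := by
  have key := le_of_deriv_nonneg (f := fun x => - DA tau x) (f' := fun x => - dDA tau x) hab
    (fun x _ => (hasDerivAt_DA h0 x).neg)
    (fun x hx => by
      have hx0 : 0 ≤ x := ha.trans hx.1
      have hx1 : x ≤ 1 := hx.2.trans hb
      have h4 : tau ^ 4 ≤ 1 := pow_le_one₀ h0.le h1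
      have hx2 : x ^ 2 ≤ 1 := pow_le_one₀ hx0 hx1
      have p1 : 0 ≤ (1 - x ^ 2) * tau ^ 2 * (27 + 36 * (tau ^ 2 + tau ^ 2 * x ^ 2) + tau ^ 4
        + 28 * tau ^ 2 * (tau ^ 2 * x ^ 2) + (tau ^ 2 * x ^ 2) ^ 2 * (1 - tau ^ 4)) /
        (2 * (1 + tau ^ 2 * x ^ 2) * (3 + tau ^ 2 * x ^ 2) ^ 3) := by
        have q1 : 0 ≤ 1 - x ^ 2 := by linarith
        have q2 : 0 ≤ 1 - tau ^ 4 := by linarith
        positivity
      have e : - dDA tau x = (1 - x ^ 2) * tau ^ 2 * (27 + 36 * (tau ^ 2 + tau ^ 2 * x ^ 2)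
        + tau ^ 4 + 28 * tau ^ 2 * (tau ^ 2 * x ^ 2) + (tau ^ 2 * x ^ 2) ^ 2 * (1 - tau ^ 4)) /
        (2 * (1 + tau ^ 2 * x ^ 2) * (3 + tau ^ 2 * x ^ 2) ^ 3) := by
        unfold dDA
        ring
      simp only [e]
      exact p1)
  linarith

theorem DA_mono {tau : ℝ} (h0 : 0 < tau) (h1 : tau ≤ 1) {a b : ℝ} (ha : 1 ≤ a) (hab : a ≤ b) :
    DA tau a ≤ DA tau b := by
  refine le_of_deriv_nonneg (f := DA tau) (f' := dDA tau) hab
    (fun x _ => hasDerivAt_DA h0 x) (fun x hx => ?_)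
  have hx0 : 1 ≤ x := ha.trans hx.1
  have h4 : tau ^ 4 ≤ 1 := pow_le_one₀ h0.le h1
  have hx2 : 1 ≤ x ^ 2 := one_le_pow₀ hx0
  unfold dDA
  have q1 : 0 ≤ x ^ 2 - 1 := by linarith
  have q2 : 0 ≤ 1 - tau ^ 4 := by linarith
  positivity

theorem DA_nonneg {tau : ℝ} (h0 : 0 < tau) (h1 : tau ≤ 1) {a : ℝ} (ha : 0 ≤ a) :
    0 ≤ DA tau a := by
  rw [← DA_one tau]
  rcases le_total a 1 with h | h
  · exact DA_anti h0 h1 ha h le_rfl
  · exact DA_mono h0 h1 le_rfl h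

/-- `L ≥ D(α)`. -/
theorem DA_le_LS {tau h ka la al : ℝ} (hh : 0 < h) (ha : 0 < al)
    (hal : al ≤ la) (ho : omS tau ka la = 2 * arctan (al * tau))
    (hk : al * ka ^ 2 = (la - al) * (1 + tau ^ 2 * al * la)) :
    DA tau al ≤ LS tau h ka la := by
  refine le_trans ?_ (LS_ge hh ha hal ho hk)
  have hl : 0 < la := lt_of_lt_of_le ha hal
  unfold DA
  have h1 : tau ^ 2 * al * al ≤ tau ^ 2 * al * la :=
    mul_le_mul_of_nonneg_left hal (by positivity)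
  have h2 : 1 + al ^ 2 * tau ^ 2 / 3 ≤ 1 + 4 / 3 * tau ^ 2 * al * la - tau ^ 2 * al ^ 2 := by
    nlinarith
  have h3 : 0 < 1 + al ^ 2 * tau ^ 2 / 3 := by positivity
  have h4 : (1 + al ^ 2 * tau ^ 2 / 3) ^ 2 ≤
      (1 + 4 / 3 * tau ^ 2 * al * la - tau ^ 2 * al ^ 2) ^ 2 := pow_le_pow_left₀ h3.le h2 2
  have h5 : (1 + tau ^ 2 / 3) ^ 3 * al ^ 2 /
      (2 * la * (1 + 4 / 3 * tau ^ 2 * al * la - tau ^ 2 * al ^ 2) ^ 2) ≤
      al * (1 + tau ^ 2 / 3) ^ 3 / (2 * (1 + al ^ 2 * tau ^ 2 / 3) ^ 2) := by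
    have e : al * (1 + tau ^ 2 / 3) ^ 3 / (2 * (1 + al ^ 2 * tau ^ 2 / 3) ^ 2) =
        (1 + tau ^ 2 / 3) ^ 3 * al ^ 2 / (2 * al * (1 + al ^ 2 * tau ^ 2 / 3) ^ 2) := by
      field_simp
    rw [e]
    apply div_le_div_of_nonneg_left (by positivity) (by positivity)
    have h6 : 2 * al ≤ 2 * la := by linarith
    exact mul_le_mul h6 h4 (by positivity) (by positivity)
  linarith

/-- The side inequality (H). -/
theorem D_H {tau : ℝ} (h0 : 0 < tau) (h1 : tau ≤ 1) {h ka la : ℝ} (hh : 0 < h) (hl : 0 < la) :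
    0 ≤ LS tau h ka la := by
  obtain ⟨al, ha, hal, ho, hk⟩ := exists_symside ka h0 hl
  exact (DA_nonneg h0 h1 ha.le).trans (DA_le_LS hh ha hal ho hk)

end Pool.Agent.NGN
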