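import Pool.Agent.NGN.Defs
import Pool.Agent.NGN.D.Arc

/-!
NGN, part D: the constants.
-/

set_option autoImplicit false

noncomputable section

namespace Pool.Agent.NGN

open Real

/-! ### `tan (π / n)` -/

theorem DC_tau_pos {n : ℕ} (hn : 3 ≤ n) : 0 < tauN n := by
  unfold tauN
  have hn' : (3 : ℝ) ≤ n := by exact_mod_cast hn
  apply tan_pos_of_pos_of_lt_pi_div_two (by positivity)
  rw [div_lt_div_iff₀ (by linarith) (by norm_num)]
  nlinarith [pi_pos]

theorem DC_arctan_tau {n : ℕ} (hn : 3 ≤ n) : n * arctan (tauN n) = π := by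
  have hn' : (3 : ℝ) ≤ n := by exact_mod_cast hn
  unfold tauN
  rw [arctan_tan]
  · field_simp
  · have : 0 < π / n := by positivity
    linarith [pi_pos]
  · rw [div_lt_div_iff₀ (by linarith) (by norm_num)]
    nlinarith [pi_pos]

theorem DC_tau_anti {m n : ℕ} (hm : 3 ≤ m) (hmn : m ≤ n) : tauN n ≤ tauN m := by
  unfold tauN
  have hm' : (3 : ℝ) ≤ m := by exact_mod_cast hm
  have hmn' : (m : ℝ) ≤ n := by exact_mod_cast hmn
  have h1 : 0 < π / n := by
    have : (0 : ℝ) < n := by linarith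
    positivity
  have h2 : 0 < π / m := by
    have : (0 : ℝ) < m := by linarith
    positivity
  apply strictMonoOn_tan.monotoneOn
  · constructor
    · linarith [pi_pos]
    · rw [div_lt_div_iff₀ (by linarith) (by norm_num)]
      nlinarith [pi_pos]
  · constructor
    · linarith [pi_pos]
    · rw [div_lt_div_iff₀ (by linarith) (by norm_num)]
      nlinarith [pi_pos]
  · exact div_le_div_of_nonneg_left pi_pos.le (by linarith) hmn'

theorem DC_tau_five_sq : tauN 5 ^ 2 = 5 - 2 * √5 := by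
  unfold tauN
  have h5 : √5 ^ 2 = 5 := sq_sqrt (by norm_num)
  have h5' : 0 < √5 := sqrt_pos.2 (by norm_num)
  have hc : cos (π / (5 : ℕ)) = (1 + √5) / 4 := by
    push_cast
    exact cos_pi_div_five
  have hc0 : cos (π / (5 : ℕ)) ≠ 0 := by rw [hc]; positivity
  have h1 := one_add_tan_sq_mul_cos_sq_eq_one hc0
  rw [hc] at h1
  have h2 : (1 + tan (π / (5 : ℕ)) ^ 2) * (6 + 2 * √5) = 16 := by nlinarith
  have h3 : (1 + tan (π / (5 : ℕ)) ^ 2) * 16 = 16 * (6 - 2 * √5) := by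
    have : (6 + 2 * √5) * (6 - 2 * √5) = 16 := by nlinarith
    calc (1 + tan (π / (5 : ℕ)) ^ 2) * 16 =
        (1 + tan (π / (5 : ℕ)) ^ 2) * ((6 + 2 * √5) * (6 - 2 * √5)) := by rw [this]
      _ = ((1 + tan (π / (5 : ℕ)) ^ 2) * (6 + 2 * √5)) * (6 - 2 * √5) := by ring
      _ = _ := by rw [h2]
  linarith

theorem DC_tau_six_sq : tauN 6 ^ 2 = 1 / 3 := by
  unfold tauN
  have : tan (π / (6 : ℕ)) = 1 / √3 := by
    push_cast
    exact tan_pi_div_six
  rw [this, div_pow, sq_sqrt (by norm_num)]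
  norm_num

theorem tau_sq_le {n : ℕ} (hn : 5 ≤ n) : tauN n ^ 2 ≤ 0.52787 := by
  have h1 := DC_tau_anti (by norm_num) hn
  have h2 := DC_tau_pos (n := n) (by omega)
  have h3 : tauN n ^ 2 ≤ tauN 5 ^ 2 := pow_le_pow_left₀ h2.le h1 2
  rw [DC_tau_five_sq] at h3
  have h5 : (2.236065 : ℝ) ≤ √5 := by
    apply le_sqrt_of_sq_le
    norm_num
  norm_num at h3 ⊢
  linarith

theorem DC_tau_sq_le_six {n : ℕ} (hn : 6 ≤ n) : tauN n ^ 2 ≤ 1 / 3 := by
  have h1 := DC_tau_anti (by norm_num) hn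
  have h2 := DC_tau_pos (n := n) (by omega)
  rw [← DC_tau_six_sq]
  exact pow_le_pow_left₀ h2.le h1 2

/-! ### the constant `κ_n` -/

/-- `n τ ≤ π (1 + 3/8 τ²)` for `n ≥ 6`. -/
theorem DC_n_tau_le {n : ℕ} (hn : 6 ≤ n) :
    n * tauN n ≤ 3.1416 + 1.1781 * tauN n ^ 2 := by
  have h1 := DC_tau_pos (n := n) (by omega)
  have h2 := DC_tau_sq_le_six hn
  have h3 := DC_arctan_tau (n := n) (by omega)
  have h4 := arctan_ge_three h1.le
  have hn' : (0 : ℝ) < n := by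
    have : (6 : ℝ) ≤ n := by exact_mod_cast hn
    linarith
  set t := tauN n with ht
  have h5 : n * (t - t ^ 3 / 3) ≤ π := by
    rw [← h3]
    exact mul_le_mul_of_nonneg_left h4 hn'.le
  have h6 : n * t * (1 - t ^ 2 / 3) ≤ π := by
    calc n * t * (1 - t ^ 2 / 3) = n * (t - t ^ 3 / 3) := by ring
      _ ≤ π := h5
  have h7 : π < 3.1416 := pi_lt_d4
  have h8 : (1 : ℝ) ≤ (1 - t ^ 2 / 3) * (1 + 3 / 8 * t ^ 2) := by nlinarith [sq_nonneg t]
  have h9 : n * t * 1 ≤ n * t * ((1 - t ^ 2 / 3) * (1 + 3 / 8 * t ^ 2)) :=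
    mul_le_mul_of_nonneg_left h8 (by positivity)
  have h10 : n * t * (1 - t ^ 2 / 3) * (1 + 3 / 8 * t ^ 2) ≤ 3.1416 * (1 + 3 / 8 * t ^ 2) := by
    apply mul_le_mul_of_nonneg_right _ (by positivity)
    linarith
  nlinarith

theorem DC_n_tau_ge {n : ℕ} (hn : 5 ≤ n) : 3.1415 ≤ n * tauN n := by
  have h1 := DC_tau_pos (n := n) (by omega)
  have h3 := DC_arctan_tau (n := n) (by omega)
  have h4 := arctan_le_self' h1.le
  have h7 : 3.1415 < π := pi_gt_d4
  have : n * arctan (tauN n) ≤ n * tauN n := mul_le_mul_of_nonneg_left h4 (by positivity)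
  linarith

/-- `κ_n` in terms of `N = n τ`. -/
theorem DC_kapN_eq (n : ℕ) : kapN n = 1 / 3 + ((n * tauN n) ^ 2 - 4 * (n * tauN n) * tauN n
    + 14 * tauN n ^ 2) / 45 + tauN n ^ 2 * (n * tauN n - tauN n) ^ 2 / 27 := by
  unfold kapN
  ring

theorem kapN_pos {n : ℕ} (hn : 5 ≤ n) : 0 < kapN n := by
  unfold kapN
  have : (5 : ℝ) ≤ n := by exact_mod_cast hn
  have h1 : 0 ≤ (n : ℝ) ^ 2 - 4 * n + 14 := by nlinarith
  positivity

/-- `δ - 5 τ / 11 > 0`, more precisely. -/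
theorem del_sub_ge (t : ℝ) : 0.8 ≤ 1 + t ^ 2 / 3 - 5 * t / 11 := by
  nlinarith [sq_nonneg (t - 15 / 22)]

theorem DC_kap_bound_six {n : ℕ} (hn : 6 ≤ n) :
    kapN n ≤ 0.55266 - 0.27925 * tauN n + 0.8412 * tauN n ^ 2 - 0.3374 * tauN n ^ 3
      + 0.34203 * tauN n ^ 4 - 0.0872 * tauN n ^ 5 + 0.0515 * tauN n ^ 6 := by
  have h1 := DC_tau_pos (n := n) (by omega)
  have h2 := DC_tau_sq_le_six hn
  have h3 := DC_n_tau_le hn
  have h4 := DC_n_tau_ge (n := n) (by omega)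
  rw [DC_kapN_eq]
  set t := tauN n with ht
  set N := (n : ℝ) * t with hN
  set B : ℝ := 3.1416 + 1.1781 * t ^ 2 with hB
  have ht1 : t ≤ 0.578 := by nlinarith
  have e1 : N ^ 2 - 4 * N * t ≤ B ^ 2 - 4 * B * t := by
    nlinarith
  have e2 : (N - t) ^ 2 ≤ (B - t) ^ 2 := by
    apply pow_le_pow_left₀ (by linarith)
    linarith
  have e3 : t ^ 2 * (N - t) ^ 2 ≤ t ^ 2 * (B - t) ^ 2 := mul_le_mul_of_nonneg_left e2 (by positivity)
  have e4 : 1 / 3 + (B ^ 2 - 4 * B * t + 14 * t ^ 2) / 45 + t ^ 2 * (B - t) ^ 2 / 27 ≤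
      0.55266 - 0.27925 * t + 0.8412 * t ^ 2 - 0.3374 * t ^ 3
      + 0.34203 * t ^ 4 - 0.0872 * t ^ 5 + 0.0515 * t ^ 6 := by
    rw [hB]
    have p1 : 0 ≤ t ^ 3 := by positivity
    have p2 : 0 ≤ t ^ 4 := by positivity
    have p3 : 0 ≤ t ^ 5 := by positivity
    have p4 : 0 ≤ t ^ 6 := by positivity
    have p5 : 0 ≤ t ^ 2 := by positivity
    ring_nf
    nlinarith
  linarith

theorem DC_kap_five : kapN 5 ≤ 0.72134 := by
  have h1 : tauN 5 ^ 2 ≤ 0.52787 := tau_sq_le le_rfl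
  have h0 : 0 ≤ tauN 5 ^ 2 := sq_nonneg _
  have h2 : tauN 5 ^ 4 ≤ 0.52787 ^ 2 := by
    have : tauN 5 ^ 4 = (tauN 5 ^ 2) ^ 2 := by ring
    rw [this]
    exact pow_le_pow_left₀ h0 h1 2
  unfold kapN
  push_cast
  norm_num at h1 h2 ⊢
  linarith

/-- `11.7 κ_n ≤ 2 n (δ - 5 τ / 11)`. -/
theorem kap_le {n : ℕ} (hn : 5 ≤ n) :
    11.7 * kapN n ≤ 2 * n * (delN n - 5 * tauN n / 11) := by
  rcases Nat.lt_or_ge n 6 with h | h
  · have : n = 5 := by omega
    subst this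
    have h1 := DC_kap_five
    have h2 : tauN 5 ^ 2 ≤ 0.52787 := tau_sq_le le_rfl
    have h3 : tauN 5 ≤ 0.72655 := by nlinarith [DC_tau_pos (n := 5) (by norm_num)]
    have h4 : 0.52786 ≤ tauN 5 ^ 2 := by
      rw [DC_tau_five_sq]
      have : √5 ≤ 2.23607 := by
        apply sqrt_le_iff.2
        norm_num
      norm_num at this ⊢
      linarith
    unfold delN
    push_cast
    norm_num at h1 h2 h3 h4 ⊢
    linarith
  · have h1 := DC_kap_bound_six h
    have h2 := DC_tau_sq_le_six h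
    have h3 := DC_tau_pos (n := n) (by omega)
    have h4 : (6 : ℝ) ≤ n := by exact_mod_cast h
    have h5 := del_sub_ge (tauN n)
    unfold delN
    have h6 : 12 * (1 + tauN n ^ 2 / 3 - 5 * tauN n / 11) ≤
        2 * n * (1 + tauN n ^ 2 / 3 - 5 * tauN n / 11) := by
      apply mul_le_mul_of_nonneg_right _ (by linarith)
      linarith
    refine le_trans ?_ h6
    set t := tauN n with ht
    have ht1 : t ≤ 0.578 := by nlinarith
    have q3 : 0 ≤ t ^ 3 := by positivity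
    have q5 : 0 ≤ t ^ 5 := by positivity
    have q4 : t ^ 4 ≤ 1 / 9 := by nlinarith [sq_nonneg t]
    have q6 : t ^ 6 ≤ 1 / 27 := by nlinarith [sq_nonneg t, pow_pos h3 4]
    norm_num at h1 ⊢
    nlinarith

/-- Lower bound for `r`. -/
theorem rS_ge {t : ℝ} (h0 : 0 < t) (h1 : t ≤ 1) :
    t ^ 2 / 3 + 2 / 5 * t ^ 4 - t ^ 6 / 6 ≤ rS t := by
  have h2 := arctan_le_five h0.le
  have h3 : 0 ≤ (1 - t ^ 4) / (2 * t) := by
    apply div_nonneg _ (by linarith)
    have := pow_le_one₀ (n := 4) h0.le h1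
    linarith
  have h4 : (1 - t ^ 4) / (2 * t) * arctan t ≤ (1 - t ^ 4) / (2 * t) * (t - t ^ 3 / 3 + t ^ 5 / 5) :=
    mul_le_mul_of_nonneg_left h2 h3
  have h5 : (1 - t ^ 4) / (2 * t) * (t - t ^ 3 / 3 + t ^ 5 / 5) =
      (1 - t ^ 4) / 2 * (1 - t ^ 2 / 3 + t ^ 4 / 5) := by
    field_simp
  have h6 : rS t = (1 + t ^ 2 / 3) / 2 - (1 - t ^ 4) / (2 * t) * arctan t := by
    unfold rS qS
    field_simp
    ring
  rw [h6]
  have h7 : 0 ≤ t ^ 8 := by positivity
  nlinarith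

/-- `τ² κ_n ≤ 9/5 r (δ - 5 τ / 11)`. -/
theorem kap_le_rS {n : ℕ} (hn : 5 ≤ n) :
    tauN n ^ 2 * kapN n ≤ 9 / 5 * rS (tauN n) * (delN n - 5 * tauN n / 11) := by
  have hp := DC_tau_pos (n := n) (by omega)
  have hsq := tau_sq_le hn
  have hle1 : tauN n ≤ 1 := by nlinarith
  have hr := rS_ge hp hle1
  have hd := del_sub_ge (tauN n)
  have hr' : 9 / 5 * (tauN n ^ 2 / 3 + 2 / 5 * tauN n ^ 4 - tauN n ^ 6 / 6) *
      (delN n - 5 * tauN n / 11) ≤ 9 / 5 * rS (tauN n) * (delN n - 5 * tauN n / 11) := by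
    apply mul_le_mul_of_nonneg_right _ (by unfold delN; linarith)
    linarith
  refine le_trans ?_ hr'
  have e : 9 / 5 * (tauN n ^ 2 / 3 + 2 / 5 * tauN n ^ 4 - tauN n ^ 6 / 6) *
      (delN n - 5 * tauN n / 11) = tauN n ^ 2 * ((3 / 5 + 18 / 25 * tauN n ^ 2
      - 3 / 10 * tauN n ^ 4) * (delN n - 5 * tauN n / 11)) := by ring
  rw [e]
  apply mul_le_mul_of_nonneg_left _ (by positivity)
  rcases Nat.lt_or_ge n 6 with h | h
  · have : n = 5 := by omega
    subst this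
    have h1 := DC_kap_five
    have h3 : tauN 5 ≤ 0.72655 := by nlinarith
    have h4 : 0.52786 ≤ tauN 5 ^ 2 := by
      rw [DC_tau_five_sq]
      have : √5 ≤ 2.23607 := by
        apply sqrt_le_iff.2
        norm_num
      norm_num at this ⊢
      linarith
    have h5 : (0.8456 : ℝ) ≤ delN 5 - 5 * tauN 5 / 11 := by
      unfold delN
      norm_num at h3 h4 ⊢
      linarith
    have h6 : (0.896 : ℝ) ≤ 3 / 5 + 18 / 25 * tauN 5 ^ 2 - 3 / 10 * tauN 5 ^ 4 := by
      have : tauN 5 ^ 4 = (tauN 5 ^ 2) ^ 2 := by ring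
      rw [this]
      nlinarith
    calc kapN 5 ≤ 0.72134 := h1
      _ ≤ 0.896 * 0.8456 := by norm_num
      _ ≤ _ := mul_le_mul h6 h5 (by norm_num) (by linarith)
  · have h1 := DC_kap_bound_six h
    have h2 := DC_tau_sq_le_six h
    unfold delN
    set t := tauN n with ht
    have ht1 : t ≤ 0.578 := by nlinarith
    have q2 : 0 ≤ t ^ 2 := by positivity
    have q3 : 0 ≤ t ^ 3 := by positivity
    have q5 : 0 ≤ t ^ 5 := by positivity
    have q4 : t ^ 4 ≤ 1 / 3 * t ^ 2 := by nlinarith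
    have q6 : t ^ 6 ≤ 1 / 9 * t ^ 2 := by nlinarith [pow_pos hp 4]
    have q33 : t ^ 3 ≤ 0.578 * t ^ 2 := by nlinarith
    norm_num at h1 ⊢
    nlinarith

/-! ### consequences of the normalisation -/

/-- The data of a field in normalised form: with `ε = 1 - R δ` and `D = ε / R`. -/
theorem norm_data {n : ℕ} (hn : 5 ≤ n) {R : ℝ} (hR0 : 0 < R) (hR1 : R < 1 / delN n)
    (D : EDat) (hE : 0 ≤ D.E)
    (h1 : R * D.l = 2 * tauN n * (1 - R * delN n))
    (h2 : D.E - R * D.M ≤ 2 * tauN n * (1 - R * delN n))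
    (h3 : D.l ^ 2 ≤ tauN n ^ 3 / n * kapN n * D.E)
    (h4 : 11 / (5 * tauN n) * D.M ≤ D.E) :
    0 < 1 - R * delN n ∧
    D.E * (delN n - 5 * tauN n / 11) ≤ 2 * tauN n * (1 - R * delN n) * delN n ∧
    R * D.M ≤ 2 * tauN n * (1 - R * delN n) * 0.391 ∧
    (1 - R * delN n) * (2 * n * (delN n - 5 * tauN n / 11)) ≤ R * (tauN n ^ 2 * kapN n) := by
  have hτ := DC_tau_pos (n := n) (by omega)
  have hsq := tau_sq_le hn
  have hd := del_sub_ge (tauN n)
  have hδ : 0 < delN n := by unfold delN; positivity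
  have hd' : 0.8 ≤ delN n - 5 * tauN n / 11 := by unfold delN; linarith
  have hn' : (0 : ℝ) < n := by
    have : (5 : ℝ) ≤ n := by exact_mod_cast hn
    linarith
  have hRδ : R * delN n < 1 := by rwa [lt_div_iff₀ hδ] at hR1
  set eps := 1 - R * delN n with heps
  have heps0 : 0 < eps := by linarith
  have hM : D.M ≤ 5 * tauN n / 11 * D.E := by
    have e : 5 * tauN n / 11 * (11 / (5 * tauN n) * D.M) = D.M := by field_simp
    rw [← e]
    exact mul_le_mul_of_nonneg_left h4 (by positivity)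
  have hRM : R * D.M ≤ R * (5 * tauN n / 11 * D.E) := mul_le_mul_of_nonneg_left hM hR0.le
  -- `δ R M ≤ (5 τ / 11) E`
  have hRM2 : delN n * (R * D.M) ≤ 5 * tauN n / 11 * D.E := by
    calc delN n * (R * D.M) ≤ delN n * (R * (5 * tauN n / 11 * D.E)) :=
          mul_le_mul_of_nonneg_left hRM hδ.le
      _ = (R * delN n) * (5 * tauN n / 11 * D.E) := by ring
      _ ≤ 1 * (5 * tauN n / 11 * D.E) := mul_le_mul_of_nonneg_right hRδ.le (by positivity)
      _ = _ := one_mul _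
  have hE2 : D.E * (delN n - 5 * tauN n / 11) ≤ 2 * tauN n * eps * delN n := by
    have := mul_le_mul_of_nonneg_left h2 hδ.le
    linarith
  refine ⟨heps0, hE2, ?_, ?_⟩
  · -- `R M ≤ 2 τ ε (5 τ / 11) / (δ - 5 τ / 11)`
    have h5 : 5 * tauN n / 11 ≤ 0.391 * (delN n - 5 * tauN n / 11) := by
      have ht : tauN n ≤ 0.72655 := by nlinarith
      unfold delN
      norm_num at ht ⊢
      nlinarith
    have h6 : delN n * (R * D.M) ≤ delN n * (2 * tauN n * eps * 0.391) := by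
      calc delN n * (R * D.M) ≤ 5 * tauN n / 11 * D.E := hRM2
        _ ≤ 0.391 * (delN n - 5 * tauN n / 11) * D.E := mul_le_mul_of_nonneg_right h5 hE
        _ = 0.391 * (D.E * (delN n - 5 * tauN n / 11)) := by ring
        _ ≤ 0.391 * (2 * tauN n * eps * delN n) := mul_le_mul_of_nonneg_left hE2 (by norm_num)
        _ = _ := by ring
    exact le_of_mul_le_mul_left h6 hδ
  · -- from `l² ≤ ..`
    have hk := kapN_pos hn
    have h5 : (2 * tauN n * eps) ^ 2 ≤ R ^ 2 * (tauN n ^ 3 / n * kapN n * D.E) := by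
      rw [← h1, mul_pow]
      exact mul_le_mul_of_nonneg_left h3 (by positivity)
    have h6 : (2 * tauN n * eps) ^ 2 * (n * (delN n - 5 * tauN n / 11)) ≤
        R ^ 2 * (tauN n ^ 3 * kapN n) * (2 * tauN n * eps * delN n) := by
      calc _ ≤ R ^ 2 * (tauN n ^ 3 / n * kapN n * D.E) * (n * (delN n - 5 * tauN n / 11)) :=
            mul_le_mul_of_nonneg_right h5 (by positivity)
        _ = R ^ 2 * (tauN n ^ 3 * kapN n) * (D.E * (delN n - 5 * tauN n / 11)) := by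
            field_simp
        _ ≤ _ := mul_le_mul_of_nonneg_left hE2 (by positivity)
    have h7 : (2 * tauN n ^ 2 * eps) * (eps * (2 * n * (delN n - 5 * tauN n / 11))) ≤
        (2 * tauN n ^ 2 * eps) * (R * (tauN n ^ 2 * kapN n)) := by
      calc _ = (2 * tauN n * eps) ^ 2 * (n * (delN n - 5 * tauN n / 11)) := by ring
        _ ≤ R ^ 2 * (tauN n ^ 3 * kapN n) * (2 * tauN n * eps * delN n) := h6
        _ = (R * delN n) * (2 * tauN n ^ 2 * eps * (R * (tauN n ^ 2 * kapN n))) := by ring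
        _ ≤ 1 * (2 * tauN n ^ 2 * eps * (R * (tauN n ^ 2 * kapN n))) :=
            mul_le_mul_of_nonneg_right hRδ.le (by positivity)
        _ = _ := by ring
    exact le_of_mul_le_mul_left h7 (by positivity)

/-- From (N), (F1), (F2): `R` is at least `(1 - epsN n) / delN n`. -/
theorem D_lower {n : ℕ} (hn : 5 ≤ n) {R : ℝ} (hR0 : 0 < R) (hR1 : R < 1 / delN n)
    (D : EDat) (ha : 0 ≤ D.a) (hb : 0 ≤ D.b) (hd : 0 ≤ D.d) (hf : 0 ≤ D.f) (hM1 : 0 ≤ D.M1)
    (hM2 : 0 ≤ D.M2)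
    (h1 : R * D.l = 2 * tauN n * (1 - R * delN n))
    (h2 : D.E - R * D.M ≤ 2 * tauN n * (1 - R * delN n))
    (h3 : D.l ^ 2 ≤ tauN n ^ 3 / n * kapN n * D.E)
    (h4 : 11 / (5 * tauN n) * D.M ≤ D.E) :
    (1 - epsN n) / delN n ≤ R := by
  have hE : 0 ≤ D.E := by unfold EDat.E; linarith
  obtain ⟨e0, -, -, e1⟩ := norm_data hn hR0 hR1 D hE h1 h2 h3 h4
  have hδ : 0 < delN n := by unfold delN; positivity
  have hd' : 0.8 ≤ delN n - 5 * tauN n / 11 := by
    have := del_sub_ge (tauN n)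
    unfold delN
    linarith
  have hn' : (0 : ℝ) < n := by
    have : (5 : ℝ) ≤ n := by exact_mod_cast hn
    linarith
  have hRδ : R * delN n < 1 := by rwa [lt_div_iff₀ hδ] at hR1
  have hk := kapN_pos hn
  have hτ := DC_tau_pos (n := n) (by omega)
  rw [div_le_iff₀ hδ]
  have h5 : 1 - R * delN n ≤ epsN n := by
    unfold epsN
    rw [le_div_iff₀ (by positivity)]
    calc (1 - R * delN n) * (2 * n * delN n * (delN n - 5 * tauN n / 11)) =
        ((1 - R * delN n) * (2 * n * (delN n - 5 * tauN n / 11))) * delN n := by ring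
      _ ≤ (R * (tauN n ^ 2 * kapN n)) * delN n := mul_le_mul_of_nonneg_right e1 hδ.le
      _ = (R * delN n) * (tauN n ^ 2 * kapN n) := by ring
      _ ≤ 1 * (tauN n ^ 2 * kapN n) := mul_le_mul_of_nonneg_right hRδ.le (by positivity)
      _ = _ := one_mul _
  linarith

end Pool.Agent.NGN
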