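import Pool.Agent.NGN.Defs

/-!
NGN, part D: the scalar quantities of a side `(h, κ, λ)`.  Notes: /team-store/ng99_scalar.md.
-/

set_option autoImplicit false

noncomputable section

namespace Pool.Agent.NGN

/-- `v = ((1 + τ²) / τ) (ω / 2 - arctan τ)`. -/
def vS (tau ka la : ℝ) : ℝ := (1 + tau ^ 2) / tau * (omS tau ka la / 2 - Real.arctan tau)

/-- `T(h³ λ³)`. -/
def T3 (tau h ka la : ℝ) : ℝ :=
  h ^ 3 * la ^ 3 - 1 - 3 / 2 * (h ^ 2 * la - 1) - 3 / 2 * vS tau ka la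

/-- `T(h² (1 + κ²)² / λ)`. -/
def TQ (tau h ka la : ℝ) : ℝ :=
  h ^ 2 * (1 + ka ^ 2) ^ 2 / la - h ^ 2 * la + 2 * vS tau ka la

/-- `T(h² λ³)`. -/
def TR (tau h ka la : ℝ) : ℝ := h ^ 2 * la ^ 3 - h ^ 2 * la - 2 * vS tau ka la

/-- The coefficient of `θ²` (up to the factor `D = 1 / s`) of a side; `d, f, ga, m1, m2` are the
normalised data of the field. -/
def YS (tau d f ga m1 m2 h ka la : ℝ) : ℝ :=
  d * TQ tau h ka la + f * TR tau h ka la + ga * (h ^ 2 * la * ka ^ 2)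
    - m1 * (LS tau h ka la - tau ^ 2 / 3 * T3 tau h ka la) - m2 * T3 tau h ka la

/-- Lower bound for `LS` (the symmetric side with the same angle, optimal height). -/
def DA (tau al : ℝ) : ℝ :=
  2 * qS tau * Real.arctan (al * tau) + rS tau
    - al * (1 + tau ^ 2 / 3) ^ 3 / (2 * (1 + al ^ 2 * tau ^ 2 / 3) ^ 2)

end Pool.Agent.NGN
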