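import Pool.Agent.NGN.D.H

/-!
NGN, part D: the facts about the side which are used for the inequality for one side.
-/

set_option autoImplicit false

noncomputable section

namespace Pool.Agent.NGN

open Real

private theorem kpoly {P X : ℝ} (hX : 0 ≤ X) (hXP : X ≤ P) (hP : P ≤ 0.52787) :
    (1 + 1.02 * P - 0.85 * X) * ((1 + X) * (3 + X) ^ 3) ≤
      27 + 36 * (P + X) + P ^ 2 + 28 * P * X + X ^ 2 * (1 - P ^ 2) := by
  have hP0 : 0 ≤ P := hX.trans hXP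
  norm_num at hP ⊢
  nlinarith [mul_nonneg hX (sub_nonneg.2 hXP), mul_nonneg hX (sub_nonneg.2 hP),
    mul_nonneg (sub_nonneg.2 hXP) (sub_nonneg.2 hP),
    mul_nonneg hX (mul_nonneg (sub_nonneg.2 hXP) (sub_nonneg.2 hP)),
    mul_nonneg (mul_nonneg hX hX) (sub_nonneg.2 hXP),
    mul_nonneg (mul_nonneg hX hX) (sub_nonneg.2 hP), mul_nonneg (pow_nonneg hX 3) (sub_nonneg.2 hP),
    mul_nonneg (pow_nonneg hX 3) (sub_nonneg.2 hXP), pow_nonneg hX 4, pow_nonneg hX 5,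
    mul_nonneg (pow_nonneg hX 4) (sub_nonneg.2 hP), sq_nonneg (P - X),
    mul_nonneg (pow_nonneg hX 2) (mul_nonneg (sub_nonneg.2 hXP) (sub_nonneg.2 hP))]

/-- Polynomial lower bound for `DA` on `[0, 1]`. -/
theorem DA_ge_poly {tau : ℝ} (h0 : 0 < tau) (h1 : tau ^ 2 ≤ 0.52787) {a : ℝ} (ha : 0 ≤ a)
    (ha1 : a ≤ 1) :
    tau ^ 2 / 2 * ((1 + 0.17 * tau ^ 2) * ((2 - 3 * a + a ^ 3) / 3)
      + 0.85 * tau ^ 2 * ((8 - 15 * a + 10 * a ^ 3 - 3 * a ^ 5) / 15)) ≤ DA tau a := by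
  set P := tau ^ 2 with hP
  have hP0 : 0 < P := by positivity
  set c0 := P / 2 * ((1 + 0.17 * P) * 2 / 3 + 0.85 * P * 8 / 15) with hc0
  set c1 := P / 2 * (-(1 + 0.17 * P) - 0.85 * P) with hc1
  set c3 := P / 2 * ((1 + 0.17 * P) / 3 + 0.85 * P * 2 / 3) with hc3
  set c5 := P / 2 * (-(0.85 * P) / 5) with hc5
  have key := le_of_deriv_nonneg (f := fun x => c1 * x + c3 * x ^ 3 + c5 * x ^ 5 - DA tau x)
    (f' := fun x => c1 + c3 * (3 * x ^ 2) + c5 * (5 * x ^ 4) - dDA tau x) ha1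
    (fun x _ => (hasDerivAt_poly5 _ _ _ x).sub (hasDerivAt_DA h0 x))
    (fun x hx => by
      have hx0 : 0 ≤ x := ha.trans hx.1
      have hx1 : x ≤ 1 := hx.2
      have hx2 : x ^ 2 ≤ 1 := pow_le_one₀ hx0 hx1
      set X := P * x ^ 2 with hX
      have hX0 : 0 ≤ X := by positivity
      have hXP : X ≤ P := by nlinarith
      have hk := kpoly hX0 hXP h1
      have hden : 0 < (1 + X) * (3 + X) ^ 3 := by positivity
      have e1 : dDA tau x = -((P / 2 * (1 - x ^ 2)) * ((27 + 36 * (P + X) + P ^ 2 + 28 * P * X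
          + X ^ 2 * (1 - P ^ 2)) / ((1 + X) * (3 + X) ^ 3))) := by
        unfold dDA
        have e2 : tau ^ 4 = P ^ 2 := by rw [hP]; ring
        rw [e2, ← hP, ← hX]
        field_simp
        ring
      have e3 : c1 + c3 * (3 * x ^ 2) + c5 * (5 * x ^ 4) =
          -((P / 2 * (1 - x ^ 2)) * (1 + 1.02 * P - 0.85 * X)) := by
        rw [hc1, hc3, hc5, hX]
        ring
      have e4 : (1 + 1.02 * P - 0.85 * X) ≤ (27 + 36 * (P + X) + P ^ 2 + 28 * P * X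
          + X ^ 2 * (1 - P ^ 2)) / ((1 + X) * (3 + X) ^ 3) := by
        rw [le_div_iff₀ hden]
        exact hk
      have e5 : 0 ≤ P / 2 * (1 - x ^ 2) := by
        have : 0 ≤ 1 - x ^ 2 := by linarith
        positivity
      have e6 := mul_le_mul_of_nonneg_left e4 e5
      simp only [e1, e3]
      linarith)
  rw [DA_one] at key
  have e7 : tau ^ 2 / 2 * ((1 + 0.17 * tau ^ 2) * ((2 - 3 * a + a ^ 3) / 3)
      + 0.85 * tau ^ 2 * ((8 - 15 * a + 10 * a ^ 3 - 3 * a ^ 5) / 15)) =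
      c0 + (c1 * a + c3 * a ^ 3 + c5 * a ^ 5) := by
    rw [← hP, hc0, hc1, hc3, hc5]
    ring
  have e8 : c0 + (c1 * 1 + c3 * 1 ^ 3 + c5 * 1 ^ 5) = 0 := by
    rw [hc0, hc1, hc3, hc5]
    ring
  rw [← hP] at e7
  rw [e7]
  linarith

private theorem rS_eq {t : ℝ} (h0 : 0 < t) :
    rS t = (1 + t ^ 2 / 3) / 2 - (1 - t ^ 4) / (2 * t) * arctan t := by
  unfold rS qS
  field_simp
  ring

private theorem q_nonneg {t : ℝ} (h0 : 0 < t) (h1 : t ≤ 1) : 0 ≤ (1 - t ^ 4) / (2 * t) := by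
  apply div_nonneg _ (by linarith)
  have := pow_le_one₀ (n := 4) h0.le h1
  linarith

theorem rS_lower {t : ℝ} (h0 : 0 < t) (h1 : t ≤ 1) :
    t ^ 2 / 3 + 2 / 5 * t ^ 4 - t ^ 6 / 6 + t ^ 8 / 10 ≤ rS t := by
  have h4 : (1 - t ^ 4) / (2 * t) * arctan t ≤ (1 - t ^ 4) / (2 * t) * (t - t ^ 3 / 3 + t ^ 5 / 5) :=
    mul_le_mul_of_nonneg_left (arctan_le_five h0.le) (q_nonneg h0 h1)
  have h5 : (1 - t ^ 4) / (2 * t) * (t - t ^ 3 / 3 + t ^ 5 / 5) =
      (1 - t ^ 4) / 2 * (1 - t ^ 2 / 3 + t ^ 4 / 5) := by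
    field_simp
  rw [rS_eq h0]
  rw [h5] at h4
  linarith

theorem rS_upper {t : ℝ} (h0 : 0 < t) (h1 : t ≤ 1) :
    rS t ≤ t ^ 2 / 3 + 2 / 5 * t ^ 4 - 2 / 21 * t ^ 6 + t ^ 8 / 10 := by
  have h4 : (1 - t ^ 4) / (2 * t) * (t - t ^ 3 / 3 + t ^ 5 / 5 - t ^ 7 / 7) ≤
      (1 - t ^ 4) / (2 * t) * arctan t :=
    mul_le_mul_of_nonneg_left (arctan_le_seven h0.le) (q_nonneg h0 h1)
  have h5 : (1 - t ^ 4) / (2 * t) * (t - t ^ 3 / 3 + t ^ 5 / 5 - t ^ 7 / 7) =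
      (1 - t ^ 4) / 2 * (1 - t ^ 2 / 3 + t ^ 4 / 5 - t ^ 6 / 7) := by
    field_simp
  rw [rS_eq h0]
  rw [h5] at h4
  have : 0 ≤ t ^ 10 := by positivity
  linarith

theorem rS_pos {t : ℝ} (h0 : 0 < t) (h1 : t ≤ 1) : 0 < rS t := by
  have h := rS_lower h0 h1
  have h2 : t ^ 6 ≤ t ^ 2 := pow_le_pow_of_le_one h0.le h1 (by norm_num)
  have h3 : 0 < t ^ 2 := by positivity
  have h4 : 0 < t ^ 4 := by positivity
  have h5 : 0 < t ^ 8 := by positivity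
  linarith

/-- `D(α) ≥ (1 - α)² r` for `1/2 ≤ α ≤ 1`. -/
private theorem DA_hi {tau : ℝ} (h0 : 0 < tau) (h1 : tau ^ 2 ≤ 0.52787) {a : ℝ} (ha : 1 / 2 ≤ a)
    (ha1 : a ≤ 1) : (1 - a) ^ 2 * rS tau ≤ DA tau a := by
  have ht1 : tau ≤ 1 := by nlinarith
  refine le_trans ?_ (DA_ge_poly h0 h1 (by linarith) ha1)
  have hr := rS_upper h0 ht1
  have h2 : (1 - a) ^ 2 * rS tau ≤
      (1 - a) ^ 2 * (tau ^ 2 / 3 + 2 / 5 * tau ^ 4 - 2 / 21 * tau ^ 6 + tau ^ 8 / 10) :=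
    mul_le_mul_of_nonneg_left hr (sq_nonneg _)
  refine h2.trans ?_
  set P := tau ^ 2 with hP
  have hP0 : 0 < P := by positivity
  have e4 : tau ^ 4 = P ^ 2 := by rw [hP]; ring
  have e6 : tau ^ 6 = P ^ 3 := by rw [hP]; ring
  have e8 : tau ^ 8 = P ^ 4 := by rw [hP]; ring
  rw [e4, e6, e8]
  have e9 : P / 2 * ((1 + 0.17 * P) * ((2 - 3 * a + a ^ 3) / 3)
      + 0.85 * P * ((8 - 15 * a + 10 * a ^ 3 - 3 * a ^ 5) / 15)) =
      (1 - a) ^ 2 * (P / 6 * ((1 + 0.17 * P) * (2 + a)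
        + 0.17 * P * (1 - a) * (8 + 9 * a + 3 * a ^ 2))) := by ring
  rw [e9]
  apply mul_le_mul_of_nonneg_left _ (sq_nonneg _)
  have e10 : P / 3 + 2 / 5 * P ^ 2 - 2 / 21 * P ^ 3 + P ^ 4 / 10 =
      P / 6 * (2 + 12 / 5 * P - 4 / 7 * P ^ 2 + 3 / 5 * P ^ 3) := by ring
  rw [e10]
  apply mul_le_mul_of_nonneg_left _ (by positivity)
  -- concave in `a`: compare with the chord
  have hc : 8 + 9 * a + 3 * a ^ 2 = 8 + 9 * a + 3 * a ^ 2 := rfl
  have h3 : (13.25 : ℝ) * (1 - a) ≤ (1 - a) * (8 + 9 * a + 3 * a ^ 2) := by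
    have h31 : (13.25 : ℝ) ≤ 8 + 9 * a + 3 * a ^ 2 := by
      norm_num
      nlinarith
    have := mul_le_mul_of_nonneg_left h31 (show (0 : ℝ) ≤ 1 - a by linarith)
    linarith
  have h4 : P * (13.25 * (1 - a)) ≤ P * ((1 - a) * (8 + 9 * a + 3 * a ^ 2)) :=
    mul_le_mul_of_nonneg_left h3 hP0.le
  have h5 : 0 ≤ 1 - a := by linarith
  norm_num at h1 h4 ⊢
  nlinarith [mul_nonneg hP0.le h5, mul_nonneg hP0.le (sub_nonneg.2 h1),
    mul_nonneg (mul_nonneg hP0.le hP0.le) (sub_nonneg.2 h1), sq_nonneg P]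

/-- `D(α) ≥ (1 - α)² r` for `0 < α ≤ 1/2`. -/
private theorem DA_lo {tau : ℝ} (h0 : 0 < tau) (h1 : tau ^ 2 ≤ 0.52787) {a : ℝ} (ha : 0 < a)
    (ha1 : a ≤ 1 / 2) : (1 - a) ^ 2 * rS tau ≤ DA tau a := by
  have ht1 : tau ≤ 1 := by nlinarith
  have hr := rS_lower h0 ht1
  have hq := q_nonneg h0 ht1
  have h2 : (1 - tau ^ 4) / (2 * tau) * (a * tau - (a * tau) ^ 3 / 3) ≤
      (1 - tau ^ 4) / (2 * tau) * arctan (a * tau) :=
    mul_le_mul_of_nonneg_left (arctan_ge_three (by positivity)) hq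
  have h3 : (1 - tau ^ 4) / (2 * tau) * (a * tau - (a * tau) ^ 3 / 3) =
      a * ((1 - tau ^ 4) / 2 * (1 - a ^ 2 * tau ^ 2 / 3)) := by
    field_simp
  have h4 : 2 * qS tau * arctan (a * tau) = (1 - tau ^ 4) / (2 * tau) * arctan (a * tau) := by
    unfold qS
    field_simp
    ring
  set P := tau ^ 2 with hP
  have hP0 : 0 < P := by positivity
  have e4 : tau ^ 4 = P ^ 2 := by rw [hP]; ring
  have e6 : tau ^ 6 = P ^ 3 := by rw [hP]; ring
  have e8 : tau ^ 8 = P ^ 4 := by rw [hP]; ring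
  unfold DA
  rw [h4, ← hP]
  rw [h3] at h2
  set x := a ^ 2 * P / 3 with hx
  have hx0 : 0 ≤ x := by positivity
  have h5 : a * (1 + P / 3) ^ 3 / (2 * (1 + x) ^ 2) ≤
      a * ((1 + P / 3) ^ 3 / 2 * (1 - 2 * x + 3 * x ^ 2)) := by
    rw [div_le_iff₀ (by positivity)]
    have h6 : 1 ≤ (1 - 2 * x + 3 * x ^ 2) * (1 + x) ^ 2 := by
      have : (1 - 2 * x + 3 * x ^ 2) * (1 + x) ^ 2 = 1 + 4 * x ^ 3 + 3 * x ^ 4 := by ring
      rw [this]
      have : 0 ≤ x ^ 3 := by positivity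
      have : 0 ≤ x ^ 4 := by positivity
      linarith
    have h7 : a * (1 + P / 3) ^ 3 * 1 ≤
        a * (1 + P / 3) ^ 3 * ((1 - 2 * x + 3 * x ^ 2) * (1 + x) ^ 2) :=
      mul_le_mul_of_nonneg_left h6 (by positivity)
    calc a * (1 + P / 3) ^ 3 = a * (1 + P / 3) ^ 3 * 1 := by ring
      _ ≤ _ := h7
      _ = _ := by ring
  -- it remains: a polynomial inequality
  have h8 : 0 ≤ a * ((1 - P ^ 2) / 2 * (1 - x) + (2 - a) * (P / 3 + 2 / 5 * P ^ 2 - P ^ 3 / 6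
      + P ^ 4 / 10) - (1 + P / 3) ^ 3 / 2 * (1 - 2 * x + 3 * x ^ 2)) := by
    apply mul_nonneg ha.le
    have e9 : (1 - P ^ 2) / 2 * (1 - x) + (2 - a) * (P / 3 + 2 / 5 * P ^ 2 - P ^ 3 / 6
      + P ^ 4 / 10) - (1 + P / 3) ^ 3 / 2 * (1 - 2 * x + 3 * x ^ 2) =
      P / 2 * ((1 - a) ^ 2 / 3 + P * (0.8 * (2 - a) - 4 / 3 + 2 * a ^ 2 / 3 - a ^ 4 / 3)
        + P ^ 2 * (a ^ 2 / 3 - (2 - a) / 3 - 1 / 27 + 2 * a ^ 2 / 9 - a ^ 4 / 3)
        + P ^ 3 * ((2 - a) / 5 + 2 * a ^ 2 / 81 - a ^ 4 / 9) - P ^ 4 * a ^ 4 / 81) := by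
      rw [hx]
      ring
    rw [e9]
    apply mul_nonneg (by positivity)
    have ha4 : a ^ 4 ≤ a ^ 2 / 4 := by
      have h21 : a ^ 2 ≤ 1 / 4 := by nlinarith
      have h22 : a ^ 4 = a ^ 2 * a ^ 2 := by ring
      rw [h22]
      nlinarith [sq_nonneg a]
    have hb : 0 ≤ 1 / 2 - a := by linarith
    norm_num at h1 ⊢
    nlinarith [mul_nonneg hP0.le hb, mul_nonneg hP0.le (sub_nonneg.2 h1),
      mul_nonneg (mul_nonneg hP0.le hP0.le) (sub_nonneg.2 h1),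
      mul_nonneg (mul_nonneg hP0.le hP0.le) hb, mul_nonneg hb (sub_nonneg.2 h1),
      mul_nonneg (mul_nonneg hP0.le hb) (sub_nonneg.2 h1), sq_nonneg (1 / 2 - a),
      mul_nonneg hP0.le (sq_nonneg (1 / 2 - a)), pow_pos hP0 3, pow_pos hP0 4,
      mul_nonneg (pow_nonneg hP0.le 3) hb, mul_nonneg hP0.le ha.le]
  have h9 : (1 - a) ^ 2 * rS tau = rS tau - a * ((2 - a) * rS tau) := by ring
  rw [h9]
  have h10 : a * ((2 - a) * (P / 3 + 2 / 5 * P ^ 2 - P ^ 3 / 6 + P ^ 4 / 10)) ≤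
      a * ((2 - a) * rS tau) := by
    apply mul_le_mul_of_nonneg_left _ ha.le
    apply mul_le_mul_of_nonneg_left _ (by linarith)
    rw [e4, e6, e8] at hr
    exact hr
  rw [e4] at h2 ⊢
  linarith

/-- `D(α) ≥ (1 - α)² r` for `0 < α ≤ 1`. -/
theorem DA_ge_sq {tau : ℝ} (h0 : 0 < tau) (h1 : tau ^ 2 ≤ 0.52787) {a : ℝ} (ha : 0 < a)
    (ha1 : a ≤ 1) : (1 - a) ^ 2 * rS tau ≤ DA tau a := by
  rcases le_total a (1 / 2) with h | h
  · exact DA_lo h0 h1 ha h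
  · exact DA_hi h0 h1 h ha1

/-- `D(9/4) > 9/10 r`. -/
private theorem DA_far {tau : ℝ} (h0 : 0 < tau) (h1 : tau ^ 2 ≤ 0.52787) :
    9 / 10 * rS tau < DA tau (9 / 4) := by
  have ht1 : tau ≤ 1 := by nlinarith
  have hr := rS_lower h0 ht1
  have hq := q_nonneg h0 ht1
  have h2 := mul_le_mul_of_nonneg_left (arctan_ge_frac4 (x := 9 / 4 * tau) (by positivity)) hq
  have h4 : 2 * qS tau * arctan (9 / 4 * tau) = (1 - tau ^ 4) / (2 * tau) * arctan (9 / 4 * tau) := by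
    unfold qS
    field_simp
    ring
  unfold DA
  rw [h4]
  set P := tau ^ 2 with hP
  have hP0 : 0 < P := by positivity
  have e4 : tau ^ 4 = P ^ 2 := by rw [hP]; ring
  have e6 : tau ^ 6 = P ^ 3 := by rw [hP]; ring
  have e8 : tau ^ 8 = P ^ 4 := by rw [hP]; ring
  set B := 105 + 90 * (81 / 16 * P) + 9 * (81 / 16 * P) ^ 2 with hB
  have hB0 : 0 < B := by positivity
  have h3 : (1 - tau ^ 4) / (2 * tau) * ((105 * (9 / 4 * tau) + 55 * (9 / 4 * tau) ^ 3) /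
      (105 + 90 * (9 / 4 * tau) ^ 2 + 9 * (9 / 4 * tau) ^ 4)) =
      9 / 8 * (1 - P ^ 2) * (105 + 55 * (81 / 16 * P)) / B := by
    have e1 : 105 + 90 * (9 / 4 * tau) ^ 2 + 9 * (9 / 4 * tau) ^ 4 = B := by
      rw [hB, hP]; ring
    have e2 : (105 * (9 / 4 * tau) + 55 * (9 / 4 * tau) ^ 3) =
        9 / 4 * tau * (105 + 55 * (81 / 16 * P)) := by
      rw [hP]; ring
    rw [e1, e2, e4]
    field_simp
    ring
  rw [h3, e4] at h2
  rw [e4, e6, e8] at hr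
  rw [e4]
  have hC : (0 : ℝ) < (1 + 27 / 16 * P) ^ 2 := by positivity
  have e5 : 9 / 4 * (1 + P / 3) ^ 3 / (2 * (1 + (9 / 4) ^ 2 * P / 3) ^ 2) =
      9 / 8 * (1 + P / 3) ^ 3 / (1 + 27 / 16 * P) ^ 2 := by
    have e7 : (1 + (9 / 4) ^ 2 * P / 3) = 1 + 27 / 16 * P := by ring
    rw [e7]
    field_simp
    ring
  rw [e5]
  have h5 : 9 / 8 * (1 + P / 3) ^ 3 / (1 + 27 / 16 * P) ^ 2 <
      9 / 8 * (1 - P ^ 2) * (105 + 55 * (81 / 16 * P)) / B
      + 1 / 10 * (P / 3 + 2 / 5 * P ^ 2 - P ^ 3 / 6) := by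
    rw [← sub_pos]
    have e9 : 9 / 8 * (1 - P ^ 2) * (105 + 55 * (81 / 16 * P)) / B
      + 1 / 10 * (P / 3 + 2 / 5 * P ^ 2 - P ^ 3 / 6)
      - 9 / 8 * (1 + P / 3) ^ 3 / (1 + 27 / 16 * P) ^ 2 =
      (9 / 8 * (1 - P ^ 2) * (105 + 55 * (81 / 16 * P)) * (1 + 27 / 16 * P) ^ 2
      + 1 / 10 * (P / 3 + 2 / 5 * P ^ 2 - P ^ 3 / 6) * B * (1 + 27 / 16 * P) ^ 2
      - 9 / 8 * (1 + P / 3) ^ 3 * B) / (B * (1 + 27 / 16 * P) ^ 2) := by
      field_simp
    rw [e9]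
    apply div_pos _ (by positivity)
    have h6 : 0 < P * (84 - 90 * P) := by
      apply mul_pos hP0
      norm_num at h1 ⊢
      linarith
    have hP3 : P ^ 3 ≤ 0.52787 * P ^ 2 := by nlinarith [sq_nonneg P]
    have hP4 : P ^ 4 ≤ 0.27866 * P ^ 2 := by
      have : P ^ 2 ≤ 0.27866 := by
        norm_num at h1 ⊢
        nlinarith
      nlinarith [sq_nonneg P]
    have hP5 : P ^ 5 ≤ 0.14711 * P ^ 2 := by
      have : P ^ 3 ≤ 0.14711 := by
        norm_num at h1 ⊢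
        nlinarith [sq_nonneg P]
      nlinarith [sq_nonneg P]
    have hP6 : P ^ 6 ≤ 0.0778 * P ^ 2 := by
      have : P ^ 4 ≤ 0.0778 := by
        norm_num at h1 ⊢
        nlinarith [sq_nonneg P, pow_pos hP0 3]
      nlinarith [sq_nonneg P]
    have hP7 : P ^ 7 ≤ 0.042 * P ^ 2 := by
      have : P ^ 5 ≤ 0.042 := by
        norm_num at h1 ⊢
        nlinarith [sq_nonneg P, pow_pos hP0 3, pow_pos hP0 4]
      nlinarith [sq_nonneg P]
    rw [hB]
    norm_num at hP3 hP4 hP5 hP6 hP7 h6 ⊢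
    nlinarith [sq_nonneg P]
  have hP4' : 0 ≤ P ^ 4 := by positivity
  linarith

/-- If `λ > 2 α` then `L > 9/10 r`. -/
private theorem LS_far {tau h ka la al : ℝ} (h0 : 0 < tau) (h1 : tau ^ 2 ≤ 0.52787) (hh : 0 < h)
    (ha : 0 < al) (hal : al ≤ la) (ho : omS tau ka la = 2 * arctan (al * tau))
    (hk : al * ka ^ 2 = (la - al) * (1 + tau ^ 2 * al * la)) (hla : 2 * al < la) :
    9 / 10 * rS tau < LS tau h ka la := by
  have ht1 : tau ≤ 1 := by nlinarith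
  refine lt_of_lt_of_le ?_ (LS_ge hh ha hal ho hk)
  have hr := rS_lower h0 ht1
  have hq := q_nonneg h0 ht1
  have h4 : 2 * qS tau * arctan (al * tau) = (1 - tau ^ 4) / (2 * tau) * arctan (al * tau) := by
    unfold qS
    field_simp
    ring
  have h2 := mul_le_mul_of_nonneg_left (arctan_ge_frac (x := al * tau) (by positivity)) hq
  rw [h4]
  set P := tau ^ 2 with hP
  have hP0 : 0 < P := by positivity
  have e4 : tau ^ 4 = P ^ 2 := by rw [hP]; ring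
  have e6 : tau ^ 6 = P ^ 3 := by rw [hP]; ring
  have e8 : tau ^ 8 = P ^ 4 := by rw [hP]; ring
  rw [e4, e6, e8] at hr
  set X := P * al ^ 2 with hX
  have hX0 : 0 < X := by positivity
  have h3 : (1 - tau ^ 4) / (2 * tau) * (3 * (al * tau) / (3 + (al * tau) ^ 2)) =
      al * ((1 - P ^ 2) / (2 * (1 + X / 3))) := by
    have e1 : 3 + (al * tau) ^ 2 = 3 * (1 + X / 3) := by rw [hX, hP]; ring
    rw [e1, e4]
    field_simp
  rw [h3] at h2
  have hla0 : 0 < la := lt_of_lt_of_le ha hal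
  -- the last term
  have h5 : (1 + P / 3) ^ 3 * al ^ 2 / (2 * la * (1 + 4 / 3 * P * al * la - P * al ^ 2) ^ 2) ≤
      al * ((1 + P / 3) ^ 3 / (4 * (1 + 5 / 3 * X) ^ 2)) := by
    have e1 : 1 + 5 / 3 * X ≤ 1 + 4 / 3 * P * al * la - P * al ^ 2 := by
      have : P * al * (2 * al) ≤ P * al * la := mul_le_mul_of_nonneg_left hla.le (by positivity)
      rw [hX]
      nlinarith
    have e2 : 0 < 1 + 5 / 3 * X := by positivity
    have e3 : (1 + 5 / 3 * X) ^ 2 ≤ (1 + 4 / 3 * P * al * la - P * al ^ 2) ^ 2 :=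
      pow_le_pow_left₀ e2.le e1 2
    have e5 : al * ((1 + P / 3) ^ 3 / (4 * (1 + 5 / 3 * X) ^ 2)) =
        (1 + P / 3) ^ 3 * al ^ 2 / (2 * (2 * al) * (1 + 5 / 3 * X) ^ 2) := by
      field_simp
      ring
    rw [e5]
    apply div_le_div_of_nonneg_left (by positivity) (by positivity)
    have e6 : 2 * (2 * al) ≤ 2 * la := by linarith
    exact mul_le_mul e6 e3 (by positivity) (by positivity)
  have hc1 : (1 + 5 / 3 * X) ^ 2 ≥ 1 + 10 / 3 * X := by nlinarith [sq_nonneg X]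
  rcases le_total al (1 / 2) with h | h
  · -- `al ≤ 1/2`: use `r / 10 ≥ r al / 5`
    have h6 : al * ((1 + P / 3) ^ 3 / (4 * (1 + 5 / 3 * X) ^ 2)) <
        al * ((1 - P ^ 2) / (2 * (1 + X / 3)) + 1 / 5 * rS tau) := by
      apply mul_lt_mul_of_pos_left _ ha
      have h7 : (1 + P / 3) ^ 3 / (4 * (1 + 5 / 3 * X) ^ 2) ≤
          (1 + P / 3) ^ 3 / (4 * (1 + X / 3)) := by
        apply div_le_div_of_nonneg_left (by positivity) (by positivity)
        linarith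
      have h8 : 1 / 5 * rS tau / (1 + X / 3) ≤ 1 / 5 * rS tau := by
        apply div_le_self
        · have := rS_pos h0 ht1
          positivity
        · linarith
      have h9 : (1 + P / 3) ^ 3 / (4 * (1 + X / 3)) <
          (1 - P ^ 2) / (2 * (1 + X / 3)) + 1 / 5 * rS tau / (1 + X / 3) := by
        have e1 : (1 + P / 3) ^ 3 / (4 * (1 + X / 3)) = ((1 + P / 3) ^ 3 / 4) / (1 + X / 3) := by
          field_simp
        have e2 : (1 - P ^ 2) / (2 * (1 + X / 3)) + 1 / 5 * rS tau / (1 + X / 3) =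
            ((1 - P ^ 2) / 2 + 1 / 5 * rS tau) / (1 + X / 3) := by
          field_simp
        rw [e1, e2]
        apply div_lt_div_of_pos_right _ (by positivity)
        have hP4 : 0 ≤ P ^ 4 := by positivity
        norm_num at h1 ⊢
        nlinarith [sq_nonneg P, mul_nonneg hP0.le (sub_nonneg.2 h1),
          mul_nonneg (mul_nonneg hP0.le hP0.le) (sub_nonneg.2 h1)]
      linarith
    have h10 : al * (1 / 5 * rS tau) ≤ 1 / 10 * rS tau := by
      have := rS_pos h0 ht1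
      nlinarith
    rw [e4] at h2 ⊢
    linarith
  · have h6 : al * ((1 + P / 3) ^ 3 / (4 * (1 + 5 / 3 * X) ^ 2)) ≤
        al * ((1 - P ^ 2) / (2 * (1 + X / 3))) := by
      apply mul_le_mul_of_nonneg_left _ ha.le
      rw [div_le_div_iff₀ (by positivity) (by positivity)]
      have hXP : P / 4 ≤ X := by
        rw [hX]
        nlinarith [mul_nonneg hP0.le (sub_nonneg.2 h)]
      have h1P : 0 ≤ 1 - P ^ 2 := by
        norm_num at h1
        nlinarith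
      have h7 : (1 - P ^ 2) * (4 * (1 + 10 / 3 * X)) ≤ (1 - P ^ 2) * (4 * (1 + 5 / 3 * X) ^ 2) := by
        apply mul_le_mul_of_nonneg_left _ h1P
        linarith
      refine le_trans ?_ h7
      have h8 : (1 + P / 3) ^ 3 ≤ 1.6264 := by
        have : 1 + P / 3 ≤ 1.17596 := by
          norm_num at h1 ⊢
          linarith
        calc (1 + P / 3) ^ 3 ≤ 1.17596 ^ 3 := pow_le_pow_left₀ (by positivity) this 3
          _ ≤ _ := by norm_num
      have h9 : (0.7213 : ℝ) ≤ 1 - P ^ 2 := by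
        norm_num at h1 ⊢
        nlinarith
      have h10 : (1 + P / 3) ^ 3 ≤ 1 + P + 0.353 * P ^ 2 := by
        norm_num at h1 ⊢
        nlinarith [sq_nonneg P]
      -- slope in `X`
      have h11 : (1 + P / 3) ^ 3 * (2 * (X - P / 4) / 3) ≤
          (1 - P ^ 2) * (4 * (10 / 3 * (X - P / 4))) := by
        have : 0 ≤ X - P / 4 := by linarith
        nlinarith
      have h12 : (1 + P / 3) ^ 3 * (2 * (1 + P / 12)) ≤ (1 - P ^ 2) * (4 * (1 + 5 / 6 * P)) := by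
        have h13 : (1 + P / 3) ^ 3 * (2 * (1 + P / 12)) ≤
            (1 + P + 0.353 * P ^ 2) * (2 * (1 + P / 12)) :=
          mul_le_mul_of_nonneg_right h10 (by positivity)
        refine h13.trans ?_
        norm_num at h1 ⊢
        nlinarith [sq_nonneg P, mul_nonneg hP0.le (sub_nonneg.2 h1),
          mul_nonneg (mul_nonneg hP0.le hP0.le) (sub_nonneg.2 h1)]
      linarith
    have h10 := rS_pos h0 ht1
    rw [e4] at h2 ⊢
    linarith

/-- The facts about a side which are used in the proof of `side_ineq`. -/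
theorem side_low {tau : ℝ} (h0 : 0 < tau) (h1 : tau ^ 2 ≤ 0.52787) {h ka la al th : ℝ}
    (hh : 0 < h) (ha : 0 < al) (hal : al ≤ la) (ho : omS tau ka la = 2 * arctan (al * tau))
    (hk : al * ka ^ 2 = (la - al) * (1 + tau ^ 2 * al * la)) (ht0 : 0 ≤ th) (ht1 : th ≤ 1)
    (hL : LS tau h ka la ≤ (1 - th) * (9 / 10 * rS tau)) :
    (al ≤ 1 → th ≤ 1 - 10 / 9 * (1 - al) ^ 2) ∧ al ≤ 9 / 4 ∧ la ≤ 2 * al := by
  have htau1 : tau ≤ 1 := by nlinarith
  have hr := rS_pos h0 htau1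
  have hL2 : LS tau h ka la ≤ 9 / 10 * rS tau := by
    refine hL.trans ?_
    have : 0 ≤ 9 / 10 * rS tau := by positivity
    nlinarith
  refine ⟨fun ha1 => ?_, ?_, ?_⟩
  · have h3 := DA_ge_sq h0 h1 ha ha1
    have h4 := DA_le_LS hh ha hal ho hk
    have h5 : (1 - al) ^ 2 * rS tau ≤ (9 / 10 * (1 - th)) * rS tau := by
      calc _ ≤ DA tau al := h3
        _ ≤ LS tau h ka la := h4
        _ ≤ _ := hL
        _ = _ := by ring
    have h6 := le_of_mul_le_mul_right h5 hr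
    linarith
  · by_contra hc
    push Not at hc
    have h3 := DA_mono h0 htau1 (by norm_num : (1 : ℝ) ≤ 9 / 4) hc.le
    have h4 := DA_le_LS hh ha hal ho hk
    have h5 := DA_far h0 h1
    linarith
  · by_contra hc
    push Not at hc
    have h5 := LS_far h0 h1 hh ha hal ho hk hc
    linarith

end Pool.Agent.NGN
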