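import Pool.Agent.NGN.D.Sum
import Pool.Agent.NGN.D.Const
import Pool.Agent.NGN.D.H

/-!
NGN, part D: the scalar theorem.
-/

set_option autoImplicit false

noncomputable section

namespace Pool.Agent.NGN

open Real Finset

/-- Blueprint section 5. -/
theorem D_main {n : ℕ} [NeZero n] (hn : 5 ≤ n) {R : ℝ} (hR0 : 0 < R) (hR1 : R < 1 / delN n)
    (D : EDat) (ha : 0 ≤ D.a) (hb : 0 ≤ D.b) (hd : 0 ≤ D.d) (hf : 0 ≤ D.f) (hM1 : 0 ≤ D.M1)
    (hM2 : 0 ≤ D.M2) (hga : D.ga ≤ 2 * (D.a + D.b) + D.d + D.f)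
    (h1 : R * D.l = 2 * tauN n * (1 - R * delN n))
    (h2 : D.E - R * D.M ≤ 2 * tauN n * (1 - R * delN n))
    (h3 : D.l ^ 2 ≤ tauN n ^ 3 / n * kapN n * D.E)
    (h4 : 11 / (5 * tauN n) * D.M ≤ D.E)
    {h ka la : ZMod n → ℝ} (hh : ∀ i, 0 < h i) (hla : ∀ i, 0 < la i)
    (hs : ∑ i, h i ^ 2 * la i = n)
    (ho : ∑ i, omS (tauN n) (ka i) (la i) = 2 * Real.pi) :
    ∃ th : ℝ, EN (tauN n) D h ka la th ≤ R * MN (tauN n) D h ka la th := by
  have hE : 0 ≤ D.E := by unfold EDat.E; linarith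
  obtain ⟨e0, e1, e2, e3⟩ := norm_data hn hR0 hR1 D hE h1 h2 h3 h4
  have hτ : 0 < tauN n := by
    unfold tauN
    have hn' : (5 : ℝ) ≤ n := by exact_mod_cast hn
    apply tan_pos_of_pos_of_lt_pi_div_two (by positivity)
    rw [div_lt_div_iff₀ (by linarith) (by norm_num)]
    nlinarith [pi_pos]
  have hat : n * arctan (tauN n) = π := by
    have hn' : (5 : ℝ) ≤ n := by exact_mod_cast hn
    unfold tauN
    rw [arctan_tan]
    · field_simp
    · have : 0 < π / n := by positivity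
      linarith [pi_pos]
    · rw [div_lt_div_iff₀ (by linarith) (by norm_num)]
      nlinarith [pi_pos]
  have hsq := tau_sq_le hn
  have hτ1 : tauN n ≤ 1 := by nlinarith
  have hn' : (0 : ℝ) < n := by
    have : (5 : ℝ) ≤ n := by exact_mod_cast hn
    linarith
  have hd' : 0.8 ≤ delN n - 5 * tauN n / 11 := by
    have := del_sub_ge (tauN n)
    unfold delN
    linarith
  have hk := kapN_pos hn
  set eps := 1 - R * delN n with heps
  set t := tauN n with ht
  set K := 2 * t * eps with hK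
  have hK0 : 0 < K := by positivity
  -- `D = ε / R`
  set DD := eps / R with hDD
  have hDD0 : 0 < DD := div_pos e0 hR0
  have hDn : DD * (2 * n * (delN n - 5 * t / 11)) ≤ t ^ 2 * kapN n := by
    have : DD * (2 * n * (delN n - 5 * t / 11)) =
        (eps * (2 * n * (delN n - 5 * t / 11))) / R := by rw [hDD]; ring
    rw [this, div_le_iff₀ hR0]
    linarith
  have hD1 : 11.7 * DD ≤ t ^ 2 := by
    have h5 := kap_le hn
    have h6 : 0 < 2 * n * (delN n - 5 * t / 11) := by positivity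
    have h7 : (11.7 * DD) * (2 * n * (delN n - 5 * t / 11)) ≤
        t ^ 2 * (2 * n * (delN n - 5 * t / 11)) := by
      calc _ = 11.7 * (DD * (2 * n * (delN n - 5 * t / 11))) := by ring
        _ ≤ 11.7 * (t ^ 2 * kapN n) := mul_le_mul_of_nonneg_left hDn (by norm_num)
        _ = t ^ 2 * (11.7 * kapN n) := by ring
        _ ≤ _ := mul_le_mul_of_nonneg_left h5 (by positivity)
    exact le_of_mul_le_mul_right h7 h6
  have hD2 : n * DD ≤ 9 / 10 * rS t := by
    have h5 := kap_le_rS hn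
    have h6 : 0 < 2 * (delN n - 5 * t / 11) := by positivity
    have h7 : (n * DD) * (2 * (delN n - 5 * t / 11)) ≤
        (9 / 10 * rS t) * (2 * (delN n - 5 * t / 11)) := by
      calc _ = DD * (2 * n * (delN n - 5 * t / 11)) := by ring
        _ ≤ t ^ 2 * kapN n := hDn
        _ ≤ _ := h5
        _ = _ := by ring
    exact le_of_mul_le_mul_right h7 h6
  have hS : (D.a + D.b) / K + D.d / K + D.f / K ≤ 1 + R * D.M1 / K + R * D.M2 / K := by
    have : D.E - R * D.M ≤ K := h2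
    rw [← sub_nonneg]
    have e : 1 + R * D.M1 / K + R * D.M2 / K - ((D.a + D.b) / K + D.d / K + D.f / K) =
        (K - (D.E - R * D.M)) / K := by
      unfold EDat.E EDat.M
      field_simp
      ring
    rw [e]
    exact div_nonneg (by linarith) hK0.le
  have hm : R * D.M1 / K + R * D.M2 / K ≤ 0.391 := by
    rw [← add_div, div_le_iff₀ hK0]
    unfold EDat.M at e2
    linarith
  obtain ⟨th, hth⟩ := exists_theta hτ hsq hat hDD0 hD1 hD2 (ab := (D.a + D.b) / K)
    (d := D.d / K) (f := D.f / K) (ga := D.ga / K) (m1 := R * D.M1 / K) (m2 := R * D.M2 / K)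
    (by positivity) (by positivity) (by positivity) (by positivity) (by positivity)
    (by
      rw [← mul_div_assoc, ← add_div, ← add_div, div_le_div_iff_of_pos_right hK0]
      exact hga) hS hm hh hla hs ho (fun i => D_H hτ hτ1 (hh i) (hla i))
  refine ⟨th, ?_⟩
  have key : EN t D h ka la th - R * MN t D h ka la th = 2 * t * R *
      (n * (1 + t ^ 2 / 3 + DD)
      - ∑ i, h i ^ 3 * la i * (1 + ka i ^ 2 + la i ^ 2 * t ^ 2 / 3)
      - 2 * th * DD * ∑ i, h i ^ 3 * la i ^ 3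
      + th ^ 2 * DD * (∑ i, h i ^ 2 * la i * ((D.a + D.b) / K + ka i ^ 2 * (D.ga / K)
          + la i ^ 2 * (D.f / K) + (1 + ka i ^ 2) ^ 2 * (D.d / K) / la i ^ 2)
        - ∑ i, h i ^ 3 * la i * ((1 + ka i ^ 2) * (R * D.M1 / K) + la i ^ 2 * (R * D.M2 / K)))) := by
    have s1 : ∑ i, h i ^ 2 * la i * ((D.a + D.b) / K + ka i ^ 2 * (D.ga / K)
          + la i ^ 2 * (D.f / K) + (1 + ka i ^ 2) ^ 2 * (D.d / K) / la i ^ 2) =
        (∑ i, h i ^ 2 * la i * (D.a + D.b + ka i ^ 2 * D.ga + la i ^ 2 * D.f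
          + (1 + ka i ^ 2) ^ 2 * D.d / la i ^ 2)) / K := by
      rw [sum_div]
      apply sum_congr rfl
      intro i _
      have := (hla i).ne'
      field_simp
    have s2 : ∑ i, h i ^ 3 * la i * ((1 + ka i ^ 2) * (R * D.M1 / K) + la i ^ 2 * (R * D.M2 / K)) =
        R * (∑ i, h i ^ 3 * la i * ((1 + ka i ^ 2) * D.M1 + la i ^ 2 * D.M2)) / K := by
      rw [mul_sum, sum_div]
      apply sum_congr rfl
      intro i _
      field_simp
    rw [s1, s2]
    unfold EN MN
    rw [hs]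
    set A1 := ∑ i, h i ^ 3 * la i * (1 + ka i ^ 2 + la i ^ 2 * t ^ 2 / 3)
    set A2 := ∑ i, h i ^ 3 * la i ^ 3
    set A3 := ∑ i, h i ^ 2 * la i * (D.a + D.b + ka i ^ 2 * D.ga + la i ^ 2 * D.f
          + (1 + ka i ^ 2) ^ 2 * D.d / la i ^ 2)
    set A4 := ∑ i, h i ^ 3 * la i * ((1 + ka i ^ 2) * D.M1 + la i ^ 2 * D.M2)
    have hl : D.l = K / R := by
      rw [eq_div_iff hR0.ne']
      linarith
    have hRne := hR0.ne'
    have hKne := hK0.ne'
    have hte : (1 + t ^ 2 / 3) = (1 - eps) / R := by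
      rw [eq_div_iff hRne, heps]
      unfold delN
      rw [← ht]
      ring
    rw [hl, hte, hDD]
    have hKe : K = 2 * t * eps := hK
    field_simp
    rw [hKe]
    ring
  have h9 : EN t D h ka la th - R * MN t D h ka la th ≤ 0 := by
    rw [key]
    exact mul_nonpos_of_nonneg_of_nonpos (by positivity) hth
  linarith

end Pool.Agent.NGN
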