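import Pool.Agent.NGN.D.SideC1
import Pool.Agent.NGN.D.SideC2
import Pool.Agent.NGN.D.SideC3
import Pool.Agent.NGN.D.SideC4
import Pool.Agent.NGN.D.SideC5
import Pool.Agent.NGN.D.SideC6
import Pool.Agent.NGN.D.SideC7

/-!
NGN, part D: the polynomial inequalities for the symmetric side.
-/

set_option autoImplicit false

namespace Pool.Agent.NGN.SideD

private theorem z_le {cv cvp v t e : ℝ} (hv1 : v ≤ t) (hv2 : t - e ≤ v) (hc : cv ≤ cvp)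
    (hcp : 0 ≤ cvp) : cv * t - cvp * e ≤ cv * v := by
  have h1 : cv * (t - v) ≤ cvp * (t - v) := mul_le_mul_of_nonneg_right hc (by linarith)
  have h2 : cvp * (t - v) ≤ cvp * e := mul_le_mul_of_nonneg_left (by linarith) hcp
  linarith

private theorem toQ {a X0 A T Zp Z : ℝ} (ha : 0 < a)
    (c : 4 * (a ^ 2 * X0 + A * (1 - a ^ 2)) ^ 3 ≤ 27 * a ^ 5 * T ^ 2 * Zp) (hz : Zp ≤ Z) :
    4 * a * (X0 + A * (1 / a ^ 2 - 1)) ^ 3 ≤ 27 * T ^ 2 * Z := by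
  have h1 : a ^ 2 * X0 + A * (1 - a ^ 2) = a ^ 2 * (X0 + A * (1 / a ^ 2 - 1)) := by
    field_simp
  rw [h1] at c
  have h2 : 27 * a ^ 5 * T ^ 2 * Zp ≤ 27 * a ^ 5 * T ^ 2 * Z :=
    mul_le_mul_of_nonneg_left hz (by positivity)
  have h3 : a ^ 5 * (4 * a * (X0 + A * (1 / a ^ 2 - 1)) ^ 3) ≤ a ^ 5 * (27 * T ^ 2 * Z) := by
    calc _ = 4 * (a ^ 2 * (X0 + A * (1 / a ^ 2 - 1))) ^ 3 := by ring
      _ ≤ _ := c
      _ ≤ _ := h2
      _ = _ := by ring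
  exact le_of_mul_le_mul_left h3 (by positivity)

private theorem toR {a b T Zp Z : ℝ} (c : 4 * a * b ^ 3 ≤ 27 * T ^ 2 * Zp) (hz : Zp ≤ Z) :
    4 * a * b ^ 3 ≤ 27 * T ^ 2 * Z :=
  c.trans (mul_le_mul_of_nonneg_left hz (by positivity))

section

variable {a w v m1 k : ℝ}

theorem HQl (hm1 : m1 = 19 / 115 ∨ m1 = 24 / 115) (ha : 1 / 20 ≤ a) (ha1 : a ≤ 1) (hw : 0 ≤ w)
    (hw1 : w ≤ 66 / 125) (hk : k = 1 - 10 / 9 * (a - 1) ^ 2) (hk0 : 0 ≤ k) (hv1 : v ≤ a - 1)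
    (hv2 : (a - 1) - w * ((a - 1) ^ 2 * (a + 2) / 3) ≤ v) :
    4 * a * ((3 + w) / 2 + 3 / 2 * (m1 * w) + 14 / 115 * k * w * (1 / a ^ 2 - 1)) ^ 3 ≤
      27 * (1 + w * a ^ 2 / 3 + m1 * w * a ^ 2) ^ 2 *
        ((3 + w) / 6 + m1 * w / 2
          + ((1 - w) / 2 - 3 / 2 * (m1 * w) - 2 * (14 / 115 * k * w)) * v) := by
  have hkw : 0 ≤ k * w := mul_nonneg hk0 hw
  rcases hm1 with rfl | rfl <;> subst hk
  · apply toQ (by linarith) (cQlm ha ha1 hw hw1)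
    have := z_le (cv := (1 - w) / 2 - 3 / 2 * (19 / 115 * w)
      - 2 * (14 / 115 * (1 - 10 / 9 * (a - 1) ^ 2) * w)) (cvp := (1 - w) / 2) hv1 hv2
      (by linarith) (by linarith)
    linarith
  · apply toQ (by linarith) (cQlp ha ha1 hw hw1)
    have := z_le (cv := (1 - w) / 2 - 3 / 2 * (24 / 115 * w)
      - 2 * (14 / 115 * (1 - 10 / 9 * (a - 1) ^ 2) * w)) (cvp := (1 - w) / 2) hv1 hv2
      (by linarith) (by linarith)
    linarith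

theorem HRl (hm1 : m1 = 19 / 115 ∨ m1 = 24 / 115) (ha : 0 ≤ a) (ha1 : a ≤ 1) (hw : 0 ≤ w)
    (hw1 : w ≤ 66 / 125) (hk : k = 1 - 10 / 9 * (a - 1) ^ 2) (hk0 : 0 ≤ k) (hv1 : v ≤ a - 1)
    (hv2 : (a - 1) - w * ((a - 1) ^ 2 * (a + 2) / 3) ≤ v) :
    4 * a * ((3 + w) / 2 + 3 / 2 * (m1 * w) + 14 / 115 * k * w * (a ^ 2 - 1)) ^ 3 ≤
      27 * (1 + w * a ^ 2 / 3 + m1 * w * a ^ 2) ^ 2 *
        ((3 + w) / 6 + m1 * w / 2
          + ((1 - w) / 2 - 3 / 2 * (m1 * w) + 2 * (14 / 115 * k * w)) * v) := by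
  have hkw : 0 ≤ k * w := mul_nonneg hk0 hw
  rcases hm1 with rfl | rfl <;> subst hk
  · apply toR (cRlm (by linarith) ha1 hw hw1)
    have := z_le (cv := (1 - w) / 2 - 3 / 2 * (19 / 115 * w)
      + 2 * (14 / 115 * (1 - 10 / 9 * (a - 1) ^ 2) * w))
      (cvp := (1 - w) / 2 + 2 * (14 / 115 * (1 - 10 / 9 * (a - 1) ^ 2) * w)) hv1 hv2
      (by linarith) (by linarith)
    linarith
  · apply toR (cRlp (by linarith) ha1 hw hw1)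
    have := z_le (cv := (1 - w) / 2 - 3 / 2 * (24 / 115 * w)
      + 2 * (14 / 115 * (1 - 10 / 9 * (a - 1) ^ 2) * w))
      (cvp := (1 - w) / 2 + 2 * (14 / 115 * (1 - 10 / 9 * (a - 1) ^ 2) * w)) hv1 hv2
      (by linarith) (by linarith)
    linarith

theorem HQr (hm1 : m1 = 19 / 115 ∨ m1 = 24 / 115) (ha : 1 ≤ a) (ha1 : a ≤ 9 / 4) (hw : 0 ≤ w)
    (hw1 : w ≤ 66 / 125) (hk : k = 1) (hv1 : v ≤ a - 1)
    (hv2 : (a - 1) - w * (1 - 13 / 20 * w) * ((a - 1) ^ 2 * (a + 2) / 3) ≤ v) :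
    4 * a * ((3 + w) / 2 + 3 / 2 * (m1 * w) + 14 / 115 * k * w * (1 / a ^ 2 - 1)) ^ 3 ≤
      27 * (1 + w * a ^ 2 / 3 + m1 * w * a ^ 2) ^ 2 *
        ((3 + w) / 6 + m1 * w / 2
          + ((1 - w) / 2 - 3 / 2 * (m1 * w) - 2 * (14 / 115 * k * w)) * v) := by
  subst hk
  rw [mul_one (14 / 115 : ℝ)]
  rcases hm1 with rfl | rfl
  · apply toQ (by linarith) (cQrm ha ha1 hw hw1)
    have := z_le (cv := (1 - w) / 2 - 3 / 2 * (19 / 115 * w) - 2 * (14 / 115 * w))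
      (cvp := (1 - w) / 2) hv1 hv2 (by linarith) (by linarith)
    linarith
  · apply toQ (by linarith) (cQrp ha ha1 hw hw1)
    have := z_le (cv := (1 - w) / 2 - 3 / 2 * (24 / 115 * w) - 2 * (14 / 115 * w))
      (cvp := (1 - w) / 2) hv1 hv2 (by linarith) (by linarith)
    linarith

theorem HRr (hm1 : m1 = 19 / 115 ∨ m1 = 24 / 115) (ha : 1 ≤ a) (ha1 : a ≤ 9 / 4) (hw : 0 ≤ w)
    (hw1 : w ≤ 66 / 125) (hk : k = 1) (hv1 : v ≤ a - 1)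
    (hv2 : (a - 1) - w * (1 - 13 / 20 * w) * ((a - 1) ^ 2 * (a + 2) / 3) ≤ v) :
    4 * a * ((3 + w) / 2 + 3 / 2 * (m1 * w) + 14 / 115 * k * w * (a ^ 2 - 1)) ^ 3 ≤
      27 * (1 + w * a ^ 2 / 3 + m1 * w * a ^ 2) ^ 2 *
        ((3 + w) / 6 + m1 * w / 2
          + ((1 - w) / 2 - 3 / 2 * (m1 * w) + 2 * (14 / 115 * k * w)) * v) := by
  subst hk
  rw [mul_one (14 / 115 : ℝ)]
  rcases hm1 with rfl | rfl
  · apply toR (cRrm ha ha1 hw hw1)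
    have := z_le (cv := (1 - w) / 2 - 3 / 2 * (19 / 115 * w) + 2 * (14 / 115 * w))
      (cvp := (1 - w) / 2 + 2 * (14 / 115 * w)) hv1 hv2 (by linarith) (by linarith)
    linarith
  · apply toR (cRrp ha ha1 hw hw1)
    have := z_le (cv := (1 - w) / 2 - 3 / 2 * (24 / 115 * w) + 2 * (14 / 115 * w))
      (cvp := (1 - w) / 2 + 2 * (14 / 115 * w)) hv1 hv2 (by linarith) (by linarith)
    linarith

end

end Pool.Agent.NGN.SideD
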