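import Pool.Agent.NGN.D.Arc

/-!
NGN, part D: bounds for the angle function `v` of a symmetric side.
-/

set_option autoImplicit false

namespace Pool.Agent.NGN.SideD

open Real

private theorem hd_v {tau : ℝ} (h0 : 0 < tau) (x : ℝ) :
    HasDerivAt (fun x => (1 + tau ^ 2) / tau * (arctan (x * tau) - arctan tau))
      ((1 + tau ^ 2) / (1 + tau ^ 2 * x ^ 2)) x := by
  have h1 : HasDerivAt (fun x : ℝ => x * tau) tau x := by
    simpa using (hasDerivAt_id x).mul_const tau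
  have h2 := (h1.arctan.sub_const (arctan tau)).const_mul ((1 + tau ^ 2) / tau)
  have e : (1 + tau ^ 2) / tau * (1 / (1 + (x * tau) ^ 2) * tau) =
      (1 + tau ^ 2) / (1 + tau ^ 2 * x ^ 2) := by
    have : 0 < 1 + (x * tau) ^ 2 := by positivity
    have h3 : 1 + tau ^ 2 * x ^ 2 = 1 + (x * tau) ^ 2 := by ring
    rw [h3]
    field_simp
  rw [e] at h2
  exact h2

private theorem hd_p (c x : ℝ) :
    HasDerivAt (fun x : ℝ => (x - 1) - c * ((x - 1) ^ 2 * (x + 2) / 3)) (1 - c * (x ^ 2 - 1)) x := by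
  have e : (fun x : ℝ => (x - 1) - c * ((x - 1) ^ 2 * (x + 2) / 3)) =
      fun x : ℝ => ((1 + c) * x + (-c / 3) * x ^ 3 + 0 * x ^ 5) + (-1 - 2 * c / 3) := by
    funext y
    ring
  rw [e]
  have h := (hasDerivAt_poly5 (1 + c) (-c / 3) 0 x).add_const (-1 - 2 * c / 3)
  have e2 : 1 + c + -c / 3 * (3 * x ^ 2) + 0 * (5 * x ^ 4) = 1 - c * (x ^ 2 - 1) := by ring
  rw [e2] at h
  exact h

theorem v_le {tau a : ℝ} (h0 : 0 < tau) (ha : 0 < a) :
    (1 + tau ^ 2) / tau * (arctan (a * tau) - arctan tau) ≤ a - 1 := by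
  have hp := hd_p 0
  simp only [zero_mul, sub_zero] at hp
  rcases le_total a 1 with h | h
  · have key := le_of_deriv_nonneg (f := fun x =>
        (1 + tau ^ 2) / tau * (arctan (x * tau) - arctan tau) - (x - 1))
      (f' := fun x => (1 + tau ^ 2) / (1 + tau ^ 2 * x ^ 2) - 1) h
      (fun y _ => (hd_v h0 y).sub (hp y))
      (fun y hy => by
        have h1 : 0 < 1 + tau ^ 2 * y ^ 2 := by positivity
        rw [sub_nonneg, le_div_iff₀ h1]
        have h2 : y ^ 2 ≤ 1 := by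
          have := hy.1
          have := hy.2
          nlinarith
        have h3 : tau ^ 2 * y ^ 2 ≤ tau ^ 2 * 1 := mul_le_mul_of_nonneg_left h2 (sq_nonneg _)
        linarith)
    simp only [one_mul, sub_self, mul_zero] at key
    linarith
  · have key := le_of_deriv_nonneg (f := fun x =>
        (x - 1) - (1 + tau ^ 2) / tau * (arctan (x * tau) - arctan tau))
      (f' := fun x => 1 - (1 + tau ^ 2) / (1 + tau ^ 2 * x ^ 2)) h
      (fun y _ => (hp y).sub (hd_v h0 y))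
      (fun y hy => by
        have h1 : 0 < 1 + tau ^ 2 * y ^ 2 := by positivity
        rw [sub_nonneg, div_le_iff₀ h1]
        have h2 : 1 ≤ y ^ 2 := by
          have := hy.1
          nlinarith
        have h3 : tau ^ 2 * 1 ≤ tau ^ 2 * y ^ 2 := mul_le_mul_of_nonneg_left h2 (sq_nonneg _)
        linarith)
    simp only [one_mul, sub_self, mul_zero] at key
    linarith

theorem v_ge_left {tau a : ℝ} (h0 : 0 < tau) (ha : 0 < a) (ha1 : a ≤ 1) :
    (a - 1) - tau ^ 2 * ((a - 1) ^ 2 * (a + 2) / 3) ≤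
      (1 + tau ^ 2) / tau * (arctan (a * tau) - arctan tau) := by
  have key := le_of_deriv_nonneg (f := fun x =>
      (x - 1) - tau ^ 2 * ((x - 1) ^ 2 * (x + 2) / 3)
        - (1 + tau ^ 2) / tau * (arctan (x * tau) - arctan tau))
    (f' := fun x => 1 - tau ^ 2 * (x ^ 2 - 1) - (1 + tau ^ 2) / (1 + tau ^ 2 * x ^ 2)) ha1
    (fun y _ => (hd_p (tau ^ 2) y).sub (hd_v h0 y))
    (fun y hy => by
      have h1 : 0 < 1 + tau ^ 2 * y ^ 2 := by positivity
      rw [sub_nonneg, div_le_iff₀ h1]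
      have h2 : y ^ 2 ≤ 1 := by
        have := hy.1
        have := hy.2
        nlinarith
      have h3 : 0 ≤ tau ^ 4 * y ^ 2 * (1 - y ^ 2) := by
        have : 0 ≤ 1 - y ^ 2 := by linarith
        positivity
      nlinarith)
  simp only [one_mul, sub_self, mul_zero] at key
  have e : (0 : ℝ) - tau ^ 2 * (0 ^ 2 * (1 + 2) / 3) = 0 := by norm_num
  rw [e] at key
  linarith

theorem v_ge_right {tau a : ℝ} (h0 : 0 < tau) (hw : tau ^ 2 ≤ 66 / 125) (ha1 : 1 ≤ a) :
    (a - 1) - tau ^ 2 * (1 - 13 / 20 * tau ^ 2) * ((a - 1) ^ 2 * (a + 2) / 3) ≤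
      (1 + tau ^ 2) / tau * (arctan (a * tau) - arctan tau) := by
  have hd_q : ∀ x, HasDerivAt (fun x => (1 + tau ^ 2) / tau * (arctan (x * tau) - arctan tau)
        - ((x - 1) - tau ^ 2 * (1 - 13 / 20 * tau ^ 2) * ((x - 1) ^ 2 * (x + 2) / 3)))
        ((1 + tau ^ 2) / (1 + tau ^ 2 * x ^ 2)
          - (1 - tau ^ 2 * (1 - 13 / 20 * tau ^ 2) * (x ^ 2 - 1))) x :=
    fun x => (hd_v h0 x).sub (hd_p (tau ^ 2 * (1 - 13 / 20 * tau ^ 2)) x)
  have key := le_of_deriv_nonneg ha1 (fun y _ => hd_q y)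
    (fun y hy => by
      have h1 : 0 < 1 + tau ^ 2 * y ^ 2 := by positivity
      rw [sub_nonneg, le_div_iff₀ h1]
      have h2 : 1 ≤ y ^ 2 := by
        have := hy.1
        nlinarith
      have hw0 : 0 ≤ tau ^ 2 := sq_nonneg _
      -- `(1 + w) - (1 - w c (y² - 1)) (1 + w y²) = w (y² - 1) (c (1 + w y²) - 1)`
      have h4 : 1 ≤ (1 - 13 / 20 * tau ^ 2) * (1 + tau ^ 2 * y ^ 2) := by
        have h5 : 0 ≤ 1 - 13 / 20 * tau ^ 2 := by linarith
        have h6 : 1 + tau ^ 2 ≤ 1 + tau ^ 2 * y ^ 2 := by nlinarith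
        have h7 : (1 - 13 / 20 * tau ^ 2) * (1 + tau ^ 2) ≤
            (1 - 13 / 20 * tau ^ 2) * (1 + tau ^ 2 * y ^ 2) := mul_le_mul_of_nonneg_left h6 h5
        have h8 : 0 ≤ tau ^ 2 * (7 / 20 - 13 / 20 * tau ^ 2) :=
          mul_nonneg hw0 (by linarith)
        nlinarith
      have h9 : 0 ≤ tau ^ 2 * (y ^ 2 - 1) *
          ((1 - 13 / 20 * tau ^ 2) * (1 + tau ^ 2 * y ^ 2) - 1) :=
        mul_nonneg (mul_nonneg hw0 (by linarith)) (by linarith)
      nlinarith)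
  simp only [one_mul, sub_self, mul_zero] at key
  have e : (0 : ℝ) - tau ^ 2 * (1 - 13 / 20 * tau ^ 2) * (0 ^ 2 * (1 + 2) / 3) = 0 := by norm_num
  rw [e] at key
  linarith

end Pool.Agent.NGN.SideD
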