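import Pool.Agent.NGN.D.SideCub

/-!
NGN, part D: the inequality of one side for the extreme data.
-/

set_option autoImplicit false

noncomputable section

namespace Pool.Agent.NGN.SideD

open Real

theorem LS_eq {tau : ℝ} (h0 : 0 < tau) (h ka la : ℝ) :
    LS tau h ka la = la * (1 + ka ^ 2 + la ^ 2 * tau ^ 2 / 3) * h ^ 3
      - la * ((3 + tau ^ 2) / 2) * h ^ 2 + ((3 + tau ^ 2) / 6 + (1 - tau ^ 2) / 2 * vS tau ka la) := by
  unfold LS vS rS qS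
  field_simp
  ring

private theorem fin_aux {la at0 be ze h : ℝ} (hla : 0 < la) (hat : 0 < at0) (hbe : 0 ≤ be)
    (hh : 0 < h) (H : 4 * la * be ^ 3 ≤ 27 * at0 ^ 2 * ze) :
    0 ≤ la * at0 * h ^ 3 - la * be * h ^ 2 + ze := by
  apply cubic_nonneg' (by positivity) (by positivity) hh.le
  have h1 : la ^ 2 * (4 * la * be ^ 3) ≤ la ^ 2 * (27 * at0 ^ 2 * ze) :=
    mul_le_mul_of_nonneg_left H (by positivity)
  nlinarith

private theorem par {tau al la ka : ℝ} (hal : 0 < al) (hla0 : al ≤ la) (hla1 : la ≤ 2 * al)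
    (hk : al * ka ^ 2 = (la - al) * (1 + tau ^ 2 * al * la)) :
    ∃ q, 0 ≤ q ∧ q ≤ 1 ∧ la = al * (1 + q) ∧ ka ^ 2 = q * (1 + tau ^ 2 * al ^ 2 * (1 + q)) := by
  refine ⟨la / al - 1, ?_, ?_, ?_, ?_⟩
  · rw [sub_nonneg, le_div_iff₀ hal]
    linarith
  · rw [sub_le_iff_le_add, div_le_iff₀ hal]
    linarith
  · field_simp
    ring
  · apply mul_left_cancel₀ hal.ne'
    rw [hk]
    field_simp
    ring

theorem vertexQ {tau h ka la al m A : ℝ} (h0 : 0 < tau) (hw : tau ^ 2 ≤ 66 / 125) (hh : 0 < h)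
    (hal : 0 < al) (hal1 : al ≤ 9 / 4) (hla0 : al ≤ la) (hla1 : la ≤ 2 * al)
    (hk : al * ka ^ 2 = (la - al) * (1 + tau ^ 2 * al * la)) (hm : 0 ≤ m) (hA : 0 ≤ A)
    (hA1 : A ≤ 14 / 115 * tau ^ 2)
    (H : 4 * al * ((3 + tau ^ 2) / 2 + 3 / 2 * m + A * (1 / al ^ 2 - 1)) ^ 3 ≤
      27 * (1 + tau ^ 2 * al ^ 2 / 3 + m * al ^ 2) ^ 2 *
        ((3 + tau ^ 2) / 6 + m / 2 + ((1 - tau ^ 2) / 2 - 3 / 2 * m - 2 * A) * vS tau ka la)) :
    0 ≤ LS tau h ka la + m * T3 tau h ka la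
      - A * (TQ tau h ka la + h ^ 2 * la * ka ^ 2) := by
  obtain ⟨q, hq0, hq1, hla, hK⟩ := par hal hla0 hla1 hk
  have hlap : 0 < la := by linarith
  have key := side_dirQ (sq_nonneg tau) hw hal hal1 hq0 hq1 hm hA hA1 H
  have e1 : (1 + tau ^ 2 * al ^ 2 * q) / al = (1 + ka ^ 2) / la := by
    rw [hK, hla]
    field_simp
    ring
  have e2 : (1 + q) * ((1 + tau ^ 2 * al ^ 2 / 3 + m * al ^ 2)
      + (4 / 3 * (tau ^ 2 * al ^ 2) + m * al ^ 2) * q) =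
      1 + ka ^ 2 + la ^ 2 * tau ^ 2 / 3 + m * la ^ 2 := by
    rw [hK, hla]
    ring
  rw [e1, e2, ← hK, ← hla] at key
  have hA2 : A ≤ tau ^ 2 / 2 := by
    have := sq_nonneg tau
    linarith
  have hbe : 0 ≤ (3 + tau ^ 2) / 2 + 3 / 2 * m
      + A * (((1 + ka ^ 2) / la) ^ 2 - 1 + ka ^ 2) := by
    have h1 : 0 ≤ A * (((1 + ka ^ 2) / la) ^ 2 + ka ^ 2) := by positivity
    have h2 : A * (((1 + ka ^ 2) / la) ^ 2 - 1 + ka ^ 2) =
        A * (((1 + ka ^ 2) / la) ^ 2 + ka ^ 2) - A := by ring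
    rw [h2]
    linarith
  have h3 := fin_aux hlap (by positivity) hbe hh key
  have e3 : LS tau h ka la + m * T3 tau h ka la - A * (TQ tau h ka la + h ^ 2 * la * ka ^ 2) =
      la * (1 + ka ^ 2 + la ^ 2 * tau ^ 2 / 3 + m * la ^ 2) * h ^ 3
      - la * ((3 + tau ^ 2) / 2 + 3 / 2 * m + A * (((1 + ka ^ 2) / la) ^ 2 - 1 + ka ^ 2)) * h ^ 2
      + ((3 + tau ^ 2) / 6 + m / 2
        + ((1 - tau ^ 2) / 2 - 3 / 2 * m - 2 * A) * vS tau ka la) := by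
    rw [LS_eq h0]
    unfold T3 TQ
    field_simp
    ring
  rw [e3]
  exact h3

theorem vertexR {tau h ka la al m B : ℝ} (h0 : 0 < tau) (hw : tau ^ 2 ≤ 66 / 125) (hh : 0 < h)
    (hal : 0 < al) (hal1 : al ≤ 9 / 4) (hla0 : al ≤ la) (hla1 : la ≤ 2 * al)
    (hk : al * ka ^ 2 = (la - al) * (1 + tau ^ 2 * al * la)) (hm : 0 ≤ m) (hB : 0 ≤ B)
    (hB1 : B ≤ 14 / 115 * tau ^ 2)
    (H : 4 * al * ((3 + tau ^ 2) / 2 + 3 / 2 * m + B * (al ^ 2 - 1)) ^ 3 ≤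
      27 * (1 + tau ^ 2 * al ^ 2 / 3 + m * al ^ 2) ^ 2 *
        ((3 + tau ^ 2) / 6 + m / 2 + ((1 - tau ^ 2) / 2 - 3 / 2 * m + 2 * B) * vS tau ka la)) :
    0 ≤ LS tau h ka la + m * T3 tau h ka la
      - B * (TR tau h ka la + h ^ 2 * la * ka ^ 2) := by
  obtain ⟨q, hq0, hq1, hla, hK⟩ := par hal hla0 hla1 hk
  have hlap : 0 < la := by linarith
  have key := side_dirR (sq_nonneg tau) hw hal hal1 hq0 hq1 hm hB hB1 H
  have e2 : (1 + q) * ((1 + tau ^ 2 * al ^ 2 / 3 + m * al ^ 2)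
      + (4 / 3 * (tau ^ 2 * al ^ 2) + m * al ^ 2) * q) =
      1 + ka ^ 2 + la ^ 2 * tau ^ 2 / 3 + m * la ^ 2 := by
    rw [hK, hla]
    ring
  rw [e2, ← hK, ← hla] at key
  have hB2 : B ≤ tau ^ 2 / 2 := by
    have := sq_nonneg tau
    linarith
  have hbe : 0 ≤ (3 + tau ^ 2) / 2 + 3 / 2 * m + B * (la ^ 2 - 1 + ka ^ 2) := by
    have h1 : 0 ≤ B * (la ^ 2 + ka ^ 2) := by positivity
    have h2 : B * (la ^ 2 - 1 + ka ^ 2) = B * (la ^ 2 + ka ^ 2) - B := by ring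
    rw [h2]
    linarith
  have h3 := fin_aux hlap (by positivity) hbe hh key
  have e3 : LS tau h ka la + m * T3 tau h ka la - B * (TR tau h ka la + h ^ 2 * la * ka ^ 2) =
      la * (1 + ka ^ 2 + la ^ 2 * tau ^ 2 / 3 + m * la ^ 2) * h ^ 3
      - la * ((3 + tau ^ 2) / 2 + 3 / 2 * m + B * (la ^ 2 - 1 + ka ^ 2)) * h ^ 2
      + ((3 + tau ^ 2) / 6 + m / 2
        + ((1 - tau ^ 2) / 2 - 3 / 2 * m + 2 * B) * vS tau ka la) := by
    rw [LS_eq h0]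
    unfold T3 TR
    ring
  rw [e3]
  exact h3

end Pool.Agent.NGN.SideD
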