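import Pool.Agent.NGN.D.Low
import Pool.Agent.NGN.D.Sym
import Pool.Agent.NGN.D.SideV
import Pool.Agent.NGN.D.SideVert
import Pool.Agent.NGN.D.SideCert

/-!
NGN, part D: the inequality for one side.
-/

set_option autoImplicit false

noncomputable section

namespace Pool.Agent.NGN

open Real SideD

/-- The polynomial inequalities at the symmetric side, with the weight `k`. -/
private theorem cert {tau ka la al k m1 : ℝ} (h0 : 0 < tau) (hw : tau ^ 2 ≤ 66 / 125)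
    (ho : omS tau ka la = 2 * arctan (al * tau)) (hal9 : al ≤ 9 / 4)
    (hm1 : m1 = 19 / 115 ∨ m1 = 24 / 115)
    (hk : (1 / 20 ≤ al ∧ al ≤ 1 ∧ k = 1 - 10 / 9 * (al - 1) ^ 2 ∧ 0 ≤ k) ∨ (1 ≤ al ∧ k = 1)) :
    4 * al * ((3 + tau ^ 2) / 2 + 3 / 2 * (m1 * tau ^ 2)
          + 14 / 115 * k * tau ^ 2 * (1 / al ^ 2 - 1)) ^ 3 ≤
        27 * (1 + tau ^ 2 * al ^ 2 / 3 + m1 * tau ^ 2 * al ^ 2) ^ 2 *
          ((3 + tau ^ 2) / 6 + m1 * tau ^ 2 / 2
            + ((1 - tau ^ 2) / 2 - 3 / 2 * (m1 * tau ^ 2) - 2 * (14 / 115 * k * tau ^ 2))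
              * vS tau ka la) ∧
      4 * al * ((3 + tau ^ 2) / 2 + 3 / 2 * (m1 * tau ^ 2)
          + 14 / 115 * k * tau ^ 2 * (al ^ 2 - 1)) ^ 3 ≤
        27 * (1 + tau ^ 2 * al ^ 2 / 3 + m1 * tau ^ 2 * al ^ 2) ^ 2 *
          ((3 + tau ^ 2) / 6 + m1 * tau ^ 2 / 2
            + ((1 - tau ^ 2) / 2 - 3 / 2 * (m1 * tau ^ 2) + 2 * (14 / 115 * k * tau ^ 2))
              * vS tau ka la) := by
  have hv : vS tau ka la = (1 + tau ^ 2) / tau * (arctan (al * tau) - arctan tau) := by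
    unfold vS
    rw [ho]
    ring
  rw [hv]
  rcases hk with ⟨h1, h2, h3, h4⟩ | ⟨h1, h2⟩
  · have hal0 : 0 < al := by linarith
    have b1 := v_le h0 hal0
    have b2 := v_ge_left h0 hal0 h2
    exact ⟨HQl hm1 h1 h2 (sq_nonneg _) hw h3 h4 b1 b2,
      HRl hm1 hal0.le h2 (sq_nonneg _) hw h3 h4 b1 b2⟩
  · have hal0 : 0 < al := by linarith
    have b1 := v_le h0 hal0
    have b2 := v_ge_right h0 hw h1
    exact ⟨HQr hm1 h1 hal9 (sq_nonneg _) hw h2 b1 b2,
      HRr hm1 h1 hal9 (sq_nonneg _) hw h2 b1 b2⟩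

/-- Affine combination of two nonnegative values. -/
private theorem aff {X Y m : ℝ} {w : ℝ} (hw : 0 < w) (h1 : 0 ≤ X + 19 / 115 * w * Y)
    (h2 : 0 ≤ X + 24 / 115 * w * Y) (hm1 : 19 / 115 * w ≤ m) (hm2 : m ≤ 24 / 115 * w) :
    0 ≤ X + m * Y := by
  have h3 : 0 ≤ (24 / 115 * w - m) * (X + 19 / 115 * w * Y) :=
    mul_nonneg (by linarith) h1
  have h4 : 0 ≤ (m - 19 / 115 * w) * (X + 24 / 115 * w * Y) :=
    mul_nonneg (by linarith) h2
  have h5 : 0 ≤ (5 / 115 * w) * (X + m * Y) := by nlinarith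
  exact nonneg_of_mul_nonneg_right h5 (by positivity)

/-- Combination of the extreme cases. -/
private theorem comb {L T Q R d' ab d f ga k th w D m1 m2 : ℝ}
    (hw : 0 < w) (hw1 : w ≤ 0.52787) (hD0 : 0 < D) (hD1 : 11.7 * D ≤ w)
    (hab : 0 ≤ ab) (hd : 0 ≤ d) (hf : 0 ≤ f) (hm1 : 0 ≤ m1) (hm2 : 0 ≤ m2)
    (hga : ga ≤ 2 * ab + d + f) (hS : ab + d + f ≤ 1 + m1 + m2) (hm : m1 + m2 ≤ 0.391)
    (ht0 : 0 ≤ th) (htk : th ≤ k) (hk1 : k ≤ 1)
    (hL : 0 ≤ L) (hd' : 0 ≤ d') (hQR : 2 * d' ≤ Q + R)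
    (hQ : ∀ m, 19 / 115 * w ≤ m → m ≤ 24 / 115 * w →
      0 ≤ L + m * T - 14 / 115 * k * w * (Q + d'))
    (hR : ∀ m, 19 / 115 * w ≤ m → m ≤ 24 / 115 * w →
      0 ≤ L + m * T - 14 / 115 * k * w * (R + d')) :
    0 ≤ L + 2 * D * T
      - D * th * (d * Q + f * R + ga * d' - m1 * (L - w / 3 * T) - m2 * T) := by
  set mu := 2 + th * (m2 - m1 * w / 3) with hmu
  have hm1w : 0 ≤ m1 * w := by positivity
  have h1 : 19 / 10 ≤ mu := by
    have h2 : th * (m1 * w / 3) ≤ 1 * (0.391 * 0.52787 / 3) := by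
      apply mul_le_mul (by linarith) _ (by positivity) (by norm_num)
      have : m1 * w ≤ 0.391 * 0.52787 := mul_le_mul (by linarith) hw1 hw.le (by norm_num)
      linarith
    have h3 : 0 ≤ th * m2 := by positivity
    rw [hmu]
    linarith [mul_sub th m2 (m1 * w / 3)]
  have h2 : mu ≤ 12 / 5 := by
    have h3 : th * m2 ≤ 1 * 0.391 := mul_le_mul (by linarith) (by linarith) hm2 (by norm_num)
    have h4 : 0 ≤ th * (m1 * w / 3) := by positivity
    rw [hmu]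
    linarith [mul_sub th m2 (m1 * w / 3)]
  -- the case `D = 2 w / 23`
  have hq := hQ (mu * (2 / 23 * w)) (by nlinarith) (by nlinarith)
  have hr := hR (mu * (2 / 23 * w)) (by nlinarith) (by nlinarith)
  set M := L + mu * (2 / 23 * w) * T with hM
  have hk0 : 0 ≤ k := by linarith
  have hkw : 0 ≤ 14 / 115 * k * w := by positivity
  have hab2 : 0 ≤ M - 14 / 115 * k * w * (2 * d') := by
    have := mul_le_mul_of_nonneg_left hQR hkw
    linarith
  have hM0 : 0 ≤ M := by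
    have : 0 ≤ 14 / 115 * k * w * (2 * d') := by positivity
    linarith
  set W := d * (Q + d') + f * (R + d') + ab * (2 * d') with hW
  have hmain : 0 ≤ M - 2 / 23 * w * th * W := by
    rcases hk0.eq_or_lt with hk | hk
    · have : th = 0 := by linarith
      rw [this]
      linarith
    · have e1 : 0 ≤ th * d * (M - 14 / 115 * k * w * (Q + d')) := by positivity
      have e2 : 0 ≤ th * f * (M - 14 / 115 * k * w * (R + d')) := by positivity
      have e3 : 0 ≤ th * ab * (M - 14 / 115 * k * w * (2 * d')) := by positivity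
      have e4 : th * (d + f + ab) ≤ k * (7 / 5) :=
        mul_le_mul htk (by linarith) (by positivity) hk0
      have e5 : th * (d + f + ab) * M ≤ k * (7 / 5) * M := mul_le_mul_of_nonneg_right e4 hM0
      have e6 : 0 ≤ k * (7 / 5) * (M - 2 / 23 * w * th * W) := by
        rw [hW]
        nlinarith
      exact nonneg_of_mul_nonneg_right e6 (by positivity)
  -- scaling of `D`
  have hWga : d * Q + f * R + ga * d' ≤ W := by
    have := mul_le_mul_of_nonneg_right hga hd'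
    rw [hW]
    linarith
  have hD : 0 ≤ L + mu * D * T - D * th * W := by
    have e1 : 0 ≤ (2 / 23 * w - D) * L := mul_nonneg (by linarith) hL
    have e2 : 0 ≤ D * (M - 2 / 23 * w * th * W) := mul_nonneg hD0.le hmain
    have e3 : 0 ≤ (2 / 23 * w) * (L + mu * D * T - D * th * W) := by
      rw [hM] at e2
      nlinarith
    exact nonneg_of_mul_nonneg_right e3 (by positivity)
  have hDth : 0 ≤ D * th := by positivity
  have e4 : D * th * (d * Q + f * R + ga * d') ≤ D * th * W := mul_le_mul_of_nonneg_left hWga hDth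
  have e5 : 0 ≤ D * th * (m1 * L) := by positivity
  have e6 : L + 2 * D * T - D * th * (d * Q + f * R + ga * d' - m1 * (L - w / 3 * T) - m2 * T) =
      (L + mu * D * T - D * th * W) + (D * th * W - D * th * (d * Q + f * R + ga * d'))
        + D * th * (m1 * L) := by
    rw [hmu]
    ring
  rw [e6]
  linarith

/-- The inequality for one side. `D = 1 / s`; the hypothesis `hL` comes from
`L ≤ ∑ L_j = (1 - θ) n D` and `n D ≤ (9 / 10) r`. -/
theorem side_ineq {tau : ℝ} (h0 : 0 < tau) (h1 : tau ^ 2 ≤ 0.52787) {D : ℝ} (hD0 : 0 < D)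
    (hD1 : 11.7 * D ≤ tau ^ 2) {ab d f ga m1 m2 : ℝ} (hab : 0 ≤ ab) (hd : 0 ≤ d) (hf : 0 ≤ f)
    (hm1 : 0 ≤ m1) (hm2 : 0 ≤ m2) (hga : ga ≤ 2 * ab + d + f) (hS : ab + d + f ≤ 1 + m1 + m2)
    (hm : m1 + m2 ≤ 0.391) {h ka la : ℝ} (hh : 0 < h) (hl : 0 < la) {th : ℝ} (ht0 : 0 ≤ th)
    (ht1 : th ≤ 1) (hL : LS tau h ka la ≤ (1 - th) * (9 / 10 * rS tau)) :
    0 ≤ LS tau h ka la + 2 * D * T3 tau h ka la - D * th * YS tau d f ga m1 m2 h ka la := by
  have hw : tau ^ 2 ≤ 66 / 125 := by linarith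
  have htau1 : tau ≤ 1 := by nlinarith
  obtain ⟨al, hal0, halla, ho, hk⟩ := exists_symside ka h0 hl
  have ho' : omS tau ka la = 2 * arctan (al * tau) := ho
  obtain ⟨l1, l2, l3⟩ := side_low h0 h1 hh hal0 halla ho' hk ht0 ht1 hL
  have hL0 := D_H h0 htau1 hh hl (ka := ka)
  have hw0 : 0 < tau ^ 2 := by positivity
  -- the weight
  obtain ⟨k, hk1, hkth, hkc⟩ : ∃ k : ℝ, k ≤ 1 ∧ th ≤ k ∧
      ((1 / 20 ≤ al ∧ al ≤ 1 ∧ k = 1 - 10 / 9 * (al - 1) ^ 2 ∧ 0 ≤ k) ∨ (1 ≤ al ∧ k = 1)) := by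
    rcases le_total al 1 with h | h
    · have h2 := l1 h
      have h3 : (1 - al) ^ 2 = (al - 1) ^ 2 := by ring
      rw [h3] at h2
      refine ⟨1 - 10 / 9 * (al - 1) ^ 2, ?_, h2, Or.inl ⟨?_, h, rfl, by linarith⟩⟩
      · have := sq_nonneg (al - 1)
        linarith
      · by_contra h4
        push Not at h4
        nlinarith
    · exact ⟨1, le_refl _, ht1, Or.inr ⟨h, rfl⟩⟩
  have hk0 : 0 ≤ k := by linarith
  have hA0 : 0 ≤ 14 / 115 * k * tau ^ 2 := by positivity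
  have hA1 : 14 / 115 * k * tau ^ 2 ≤ 14 / 115 * tau ^ 2 := by
    have : k * tau ^ 2 ≤ 1 * tau ^ 2 := mul_le_mul_of_nonneg_right hk1 hw0.le
    linarith
  have hQv : ∀ m1' : ℝ, m1' = 19 / 115 ∨ m1' = 24 / 115 →
      0 ≤ LS tau h ka la + m1' * tau ^ 2 * T3 tau h ka la
        - 14 / 115 * k * tau ^ 2 * (TQ tau h ka la + h ^ 2 * la * ka ^ 2) := by
    intro m1' hm1'
    have hm0 : 0 ≤ m1' * tau ^ 2 := by
      rcases hm1' with rfl | rfl <;> positivity
    exact vertexQ h0 hw hh hal0 l2 halla l3 hk hm0 hA0 hA1 (cert h0 hw ho' l2 hm1' hkc).1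
  have hRv : ∀ m1' : ℝ, m1' = 19 / 115 ∨ m1' = 24 / 115 →
      0 ≤ LS tau h ka la + m1' * tau ^ 2 * T3 tau h ka la
        - 14 / 115 * k * tau ^ 2 * (TR tau h ka la + h ^ 2 * la * ka ^ 2) := by
    intro m1' hm1'
    have hm0 : 0 ≤ m1' * tau ^ 2 := by
      rcases hm1' with rfl | rfl <;> positivity
    exact vertexR h0 hw hh hal0 l2 halla l3 hk hm0 hA0 hA1 (cert h0 hw ho' l2 hm1' hkc).2
  have hQR : 2 * (h ^ 2 * la * ka ^ 2) ≤ TQ tau h ka la + TR tau h ka la := by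
    have e : TQ tau h ka la + TR tau h ka la - 2 * (h ^ 2 * la * ka ^ 2) =
        h ^ 2 * (1 + ka ^ 2 - la ^ 2) ^ 2 / la := by
      unfold TQ TR
      field_simp
      ring
    have : 0 ≤ h ^ 2 * (1 + ka ^ 2 - la ^ 2) ^ 2 / la := by positivity
    linarith
  have key := comb (T := T3 tau h ka la) (Q := TQ tau h ka la) (R := TR tau h ka la)
    (d' := h ^ 2 * la * ka ^ 2) hw0 h1 hD0 hD1 hab hd hf hm1 hm2 hga hS hm ht0 hkth hk1 hL0
    (by positivity) hQR
    (fun m hma hmb => by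
      have := aff (X := LS tau h ka la
        - 14 / 115 * k * tau ^ 2 * (TQ tau h ka la + h ^ 2 * la * ka ^ 2))
        (Y := T3 tau h ka la) hw0 (by linarith [hQv _ (Or.inl rfl)])
        (by linarith [hQv _ (Or.inr rfl)]) hma hmb
      linarith)
    (fun m hma hmb => by
      have := aff (X := LS tau h ka la
        - 14 / 115 * k * tau ^ 2 * (TR tau h ka la + h ^ 2 * la * ka ^ 2))
        (Y := T3 tau h ka la) hw0 (by linarith [hRv _ (Or.inl rfl)])
        (by linarith [hRv _ (Or.inr rfl)]) hma hmb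
      linarith)
  unfold YS
  exact key

end Pool.Agent.NGN
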