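import Pool.Agent.NGN.D.Defs

/-!
NGN, part D: elimination of the height of a side, and the reduction to symmetric sides.
-/

set_option autoImplicit false

noncomputable section

namespace Pool.Agent.NGN.SideD

open Real

theorem cubic_nonneg' {P Q Z h : ℝ} (hP : 0 < P) (hQ : 0 ≤ Q) (hh : 0 ≤ h)
    (H : 4 * Q ^ 3 ≤ 27 * P ^ 2 * Z) : 0 ≤ P * h ^ 3 - Q * h ^ 2 + Z := by
  have h1 : 0 ≤ (3 * P * h - 2 * Q) ^ 2 * (3 * P * h + Q) := by positivity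
  have h2 : 0 ≤ (27 * P ^ 2) * (P * h ^ 3 - Q * h ^ 2 + Z) := by nlinarith
  exact nonneg_of_mul_nonneg_right h2 (by positivity)

/-- The direction `la = a (1 + q)`. -/
private theorem dir_aux {a q b0 b D0 r s ze : ℝ} (ha : 0 < a) (hq0 : 0 ≤ q) (hq1 : q ≤ 1)
    (hb0 : 0 < b0) (hb : 0 ≤ b) (hD0 : 0 < D0) (hr0 : 0 ≤ r) (hs0 : 0 ≤ s)
    (hk : b ≤ b0 * (1 + q / 4) ∨ (b ≤ b0 * (1 + s * q) ∧ s ≤ 1 ∧ s * D0 ≤ r) ∨
      (b ≤ b0 * (1 + q) ∧ D0 ≤ r))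
    (h : 4 * a * b0 ^ 3 ≤ 27 * D0 ^ 2 * ze) :
    4 * (a * (1 + q)) * b ^ 3 ≤ 27 * ((1 + q) * (D0 + r * q)) ^ 2 * ze := by
  have hD : 0 < D0 + r * q := by positivity
  have hq : 0 < 1 + q := by linarith
  -- the main comparison
  have main : b ^ 3 * D0 ^ 2 ≤ (1 + q) * (D0 + r * q) ^ 2 * b0 ^ 3 := by
    rcases hk with hk | ⟨hk, hs1, hr1⟩ | ⟨hk, hr1⟩
    · have h1 : b ^ 3 ≤ (b0 * (1 + q / 4)) ^ 3 := pow_le_pow_left₀ hb hk 3
      have h2 : (1 + q / 4) ^ 3 ≤ 1 + q := by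
        nlinarith [mul_nonneg hq0 (sub_nonneg.2 hq1),
          mul_nonneg (mul_nonneg hq0 hq0) (sub_nonneg.2 hq1)]
      have h3 : D0 ^ 2 ≤ (D0 + r * q) ^ 2 :=
        pow_le_pow_left₀ hD0.le (by nlinarith [mul_nonneg hr0 hq0]) 2
      calc b ^ 3 * D0 ^ 2 ≤ (b0 * (1 + q / 4)) ^ 3 * (D0 + r * q) ^ 2 :=
            mul_le_mul h1 h3 (by positivity) (by positivity)
        _ = (1 + q / 4) ^ 3 * ((D0 + r * q) ^ 2 * b0 ^ 3) := by ring
        _ ≤ (1 + q) * ((D0 + r * q) ^ 2 * b0 ^ 3) :=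
            mul_le_mul_of_nonneg_right h2 (by positivity)
        _ = _ := by ring
    · have h1 : b ^ 3 ≤ (b0 * (1 + s * q)) ^ 3 := pow_le_pow_left₀ hb hk 3
      have h2 : (D0 * (1 + s * q)) ^ 2 ≤ (D0 + r * q) ^ 2 := by
        apply pow_le_pow_left₀ (by positivity)
        nlinarith [mul_le_mul_of_nonneg_right hr1 hq0]
      have h3 : 1 + s * q ≤ 1 + q := by nlinarith
      calc b ^ 3 * D0 ^ 2 ≤ (b0 * (1 + s * q)) ^ 3 * D0 ^ 2 :=
            mul_le_mul_of_nonneg_right h1 (by positivity)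
        _ = ((1 + s * q) * (D0 * (1 + s * q)) ^ 2) * b0 ^ 3 := by ring
        _ ≤ ((1 + q) * (D0 + r * q) ^ 2) * b0 ^ 3 := by
            apply mul_le_mul_of_nonneg_right _ (by positivity)
            exact mul_le_mul h3 h2 (by positivity) (by positivity)
        _ = _ := by ring
    · have h1 : b ^ 3 ≤ (b0 * (1 + q)) ^ 3 := pow_le_pow_left₀ hb hk 3
      have h2 : (D0 * (1 + q)) ^ 2 ≤ (D0 + r * q) ^ 2 := by
        apply pow_le_pow_left₀ (by positivity)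
        nlinarith [mul_le_mul_of_nonneg_right hr1 hq0]
      calc b ^ 3 * D0 ^ 2 ≤ (b0 * (1 + q)) ^ 3 * D0 ^ 2 :=
            mul_le_mul_of_nonneg_right h1 (by positivity)
        _ = ((1 + q) * (D0 * (1 + q)) ^ 2) * b0 ^ 3 := by ring
        _ ≤ ((1 + q) * (D0 + r * q) ^ 2) * b0 ^ 3 := by
            apply mul_le_mul_of_nonneg_right _ (by positivity)
            exact mul_le_mul_of_nonneg_left h2 (by positivity)
        _ = _ := by ring
  have h4 : D0 ^ 2 * (4 * a * b ^ 3) ≤ D0 ^ 2 * (27 * (1 + q) * (D0 + r * q) ^ 2 * ze) := by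
    have h5 : 4 * a * (b ^ 3 * D0 ^ 2) ≤ 4 * a * ((1 + q) * (D0 + r * q) ^ 2 * b0 ^ 3) :=
      mul_le_mul_of_nonneg_left main (by positivity)
    have h6 : ((1 + q) * (D0 + r * q) ^ 2) * (4 * a * b0 ^ 3) ≤
        ((1 + q) * (D0 + r * q) ^ 2) * (27 * D0 ^ 2 * ze) :=
      mul_le_mul_of_nonneg_left h (by positivity)
    nlinarith
  have h7 : 4 * a * b ^ 3 ≤ 27 * (1 + q) * (D0 + r * q) ^ 2 * ze :=
    le_of_mul_le_mul_left h4 (by positivity)
  calc 4 * (a * (1 + q)) * b ^ 3 = (1 + q) * (4 * a * b ^ 3) := by ring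
    _ ≤ (1 + q) * (27 * (1 + q) * (D0 + r * q) ^ 2 * ze) := mul_le_mul_of_nonneg_left h7 hq.le
    _ = _ := by ring

/-- Which of the three cases applies. -/
private theorem dir_case {b0 De q s D0 r : ℝ} (hq0 : 0 ≤ q) (hb0 : 3 / 2 ≤ b0)
    (hr1 : s ≤ 1 → s * D0 ≤ r) (hr2 : 1 ≤ s → D0 ≤ r)
    (hDe1 : s ≤ 1 → De ≤ 3 / 8 ∨ De ≤ 3 / 2 * s) (hDe2 : 1 ≤ s → De ≤ 3 / 2) :
    b0 + q * De ≤ b0 * (1 + q / 4) ∨ (b0 + q * De ≤ b0 * (1 + s * q) ∧ s ≤ 1 ∧ s * D0 ≤ r) ∨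
      (b0 + q * De ≤ b0 * (1 + q) ∧ D0 ≤ r) := by
  rcases le_total s 1 with hs | hs
  · rcases hDe1 hs with h | h
    · left
      have h1 : q * De ≤ q * (b0 / 4) := mul_le_mul_of_nonneg_left (by linarith) hq0
      linarith
    · by_cases hs0 : 0 ≤ s
      · right
        left
        refine ⟨?_, hs, hr1 hs⟩
        have h0 : 3 / 2 * s ≤ b0 * s := mul_le_mul_of_nonneg_right hb0 hs0
        have h1 : q * De ≤ q * (b0 * s) := mul_le_mul_of_nonneg_left (by linarith) hq0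
        linarith
      · left
        push Not at hs0
        have h1 : q * De ≤ q * (b0 / 4) := mul_le_mul_of_nonneg_left (by linarith) hq0
        linarith
  · right
    right
    refine ⟨?_, hr2 hs⟩
    have h1 : q * De ≤ q * b0 := mul_le_mul_of_nonneg_left (by linarith [hDe2 hs]) hq0
    linarith

private theorem r_bounds {s M : ℝ} (hs0 : 0 ≤ s) (hM : 0 ≤ M) :
    (s ≤ 1 → s * (1 + s / 3 + M) ≤ 4 / 3 * s + M) ∧
      (1 ≤ s → 1 + s / 3 + M ≤ 4 / 3 * s + M) := by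
  refine ⟨fun h => ?_, fun h => by linarith⟩
  have h1 : s * s ≤ s * 1 := mul_le_mul_of_nonneg_left h hs0
  have h2 : s * M ≤ 1 * M := mul_le_mul_of_nonneg_right h hM
  nlinarith

private theorem s_bound {w a : ℝ} (hw1 : w ≤ 66 / 125) (ha : 0 < a) (ha1 : a ≤ 9 / 4) :
    w * a ^ 2 ≤ 2.673 := by
  have ha2 : a ^ 2 ≤ 81 / 16 := by nlinarith
  have : w * a ^ 2 ≤ 66 / 125 * (81 / 16) := mul_le_mul hw1 ha2 (by positivity) (by norm_num)
  linarith

/-- From the symmetric side to the general one (weight `A`). -/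
theorem side_dirQ {w a q m A ze : ℝ} (hw0 : 0 ≤ w) (hw1 : w ≤ 66 / 125) (ha : 0 < a)
    (ha1 : a ≤ 9 / 4) (hq0 : 0 ≤ q) (hq1 : q ≤ 1) (hm : 0 ≤ m) (hA : 0 ≤ A)
    (hA1 : A ≤ 14 / 115 * w)
    (h : 4 * a * ((3 + w) / 2 + 3 / 2 * m + A * (1 / a ^ 2 - 1)) ^ 3 ≤
      27 * (1 + w * a ^ 2 / 3 + m * a ^ 2) ^ 2 * ze) :
    4 * (a * (1 + q)) * ((3 + w) / 2 + 3 / 2 * m
        + A * (((1 + w * a ^ 2 * q) / a) ^ 2 - 1 + q * (1 + w * a ^ 2 * (1 + q)))) ^ 3 ≤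
      27 * ((1 + q) * ((1 + w * a ^ 2 / 3 + m * a ^ 2) + (4 / 3 * (w * a ^ 2) + m * a ^ 2) * q)) ^ 2
        * ze := by
  have hs1 := s_bound hw1 ha ha1
  have hs0 : 0 ≤ w * a ^ 2 := by positivity
  have hma : 0 ≤ m * a ^ 2 := by positivity
  have hAia : 0 ≤ A * (1 / a ^ 2) := by positivity
  have hb0' : 3 / 2 ≤ (3 + w) / 2 + 3 / 2 * m + A * (1 / a ^ 2 - 1) := by
    have : A ≤ w / 2 := by linarith
    linarith [mul_sub A (1 / a ^ 2) 1]
  have hb : (3 + w) / 2 + 3 / 2 * m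
        + A * (((1 + w * a ^ 2 * q) / a) ^ 2 - 1 + q * (1 + w * a ^ 2 * (1 + q))) =
      ((3 + w) / 2 + 3 / 2 * m + A * (1 / a ^ 2 - 1))
        + q * (A * (w * (2 + w * a ^ 2 * q) + 1 + w * a ^ 2 * (1 + q))) := by
    field_simp
    ring
  rw [hb]
  generalize hS : w * a ^ 2 = s at *
  generalize hM : m * a ^ 2 = M at *
  have hsq : s * q ≤ s := by nlinarith
  have hin : w * (2 + s * q) + 1 + s * (1 + q) ≤ w * (2 + s) + 1 + 2 * s := by
    have : w * (2 + s * q) ≤ w * (2 + s) := mul_le_mul_of_nonneg_left (by linarith) hw0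
    nlinarith
  have hDe0 : 0 ≤ A * (w * (2 + s * q) + 1 + s * (1 + q)) := by positivity
  have hDe : A * (w * (2 + s * q) + 1 + s * (1 + q)) ≤
      14 / 115 * (66 / 125) * (66 / 125 * (2 + s) + 1 + 2 * s) := by
    apply mul_le_mul (by linarith) _ (by positivity) (by norm_num)
    have : w * (2 + s) ≤ 66 / 125 * (2 + s) := mul_le_mul_of_nonneg_right hw1 (by positivity)
    linarith
  obtain ⟨hr1, hr2⟩ := r_bounds hs0 hma
  exact dir_aux ha hq0 hq1 (by linarith) (by positivity) (by positivity) (by positivity)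
    hs0 (dir_case hq0 hb0' hr1 hr2 (fun hs => Or.inl (by linarith)) (fun _ => by linarith)) h

/-- From the symmetric side to the general one (weight `B`). -/
theorem side_dirR {w a q m B ze : ℝ} (hw0 : 0 ≤ w) (hw1 : w ≤ 66 / 125) (ha : 0 < a)
    (ha1 : a ≤ 9 / 4) (hq0 : 0 ≤ q) (hq1 : q ≤ 1) (hm : 0 ≤ m) (hB : 0 ≤ B)
    (hB1 : B ≤ 14 / 115 * w)
    (h : 4 * a * ((3 + w) / 2 + 3 / 2 * m + B * (a ^ 2 - 1)) ^ 3 ≤
      27 * (1 + w * a ^ 2 / 3 + m * a ^ 2) ^ 2 * ze) :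
    4 * (a * (1 + q)) * ((3 + w) / 2 + 3 / 2 * m
        + B * ((a * (1 + q)) ^ 2 - 1 + q * (1 + w * a ^ 2 * (1 + q)))) ^ 3 ≤
      27 * ((1 + q) * ((1 + w * a ^ 2 / 3 + m * a ^ 2) + (4 / 3 * (w * a ^ 2) + m * a ^ 2) * q)) ^ 2
        * ze := by
  have hs1 := s_bound hw1 ha ha1
  have hs0 : 0 ≤ w * a ^ 2 := by positivity
  have hma : 0 ≤ m * a ^ 2 := by positivity
  have hBa : 0 ≤ B * a ^ 2 := by positivity
  have hBa1 : B * a ^ 2 ≤ 14 / 115 * (w * a ^ 2) := by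
    have := mul_le_mul_of_nonneg_right hB1 (sq_nonneg a)
    linarith
  have hb0' : 3 / 2 ≤ (3 + w) / 2 + 3 / 2 * m + B * (a ^ 2 - 1) := by
    have : B ≤ w / 2 := by linarith
    linarith [mul_sub B (a ^ 2) 1]
  have hb : (3 + w) / 2 + 3 / 2 * m
        + B * ((a * (1 + q)) ^ 2 - 1 + q * (1 + w * a ^ 2 * (1 + q))) =
      ((3 + w) / 2 + 3 / 2 * m + B * (a ^ 2 - 1))
        + q * (B * a ^ 2 * (2 + q) + B * (1 + w * a ^ 2 * (1 + q))) := by
    ring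
  rw [hb]
  generalize hS : w * a ^ 2 = s at *
  generalize hM : m * a ^ 2 = M at *
  have hDe0 : 0 ≤ B * a ^ 2 * (2 + q) + B * (1 + s * (1 + q)) := by positivity
  have hDe : B * a ^ 2 * (2 + q) + B * (1 + s * (1 + q)) ≤
      14 / 115 * s * 3 + 14 / 115 * (66 / 125) * (1 + 2 * s) := by
    apply add_le_add
    · exact mul_le_mul hBa1 (by linarith) (by positivity) (by positivity)
    · apply mul_le_mul (by linarith) _ (by positivity) (by norm_num)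
      nlinarith
  obtain ⟨hr1, hr2⟩ := r_bounds hs0 hma
  refine dir_aux ha hq0 hq1 (by linarith) (by positivity) (by positivity) (by positivity)
    hs0 (dir_case hq0 hb0' hr1 hr2 (fun hs => ?_) (fun _ => by linarith)) h
  rcases le_total s (3 / 5) with h5 | h5
  · left
    linarith
  · right
    linarith

end Pool.Agent.NGN.SideD
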