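import Pool.Agent.NGN.D.Side

/-!
NGN, part D: summation over the sides.
-/

set_option autoImplicit false

noncomputable section

namespace Pool.Agent.NGN

open Finset

private theorem sum_LS {n : ℕ} [NeZero n] {tau : ℝ} (hat : n * Real.arctan tau = Real.pi)
    {h ka la : ZMod n → ℝ} (hs : ∑ i, h i ^ 2 * la i = n)
    (ho : ∑ i, omS tau (ka i) (la i) = 2 * Real.pi) :
    ∑ i, LS tau (h i) (ka i) (la i) =
      ∑ i, h i ^ 3 * la i * (1 + ka i ^ 2 + la i ^ 2 * tau ^ 2 / 3) - n * (1 + tau ^ 2 / 3) := by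
  have hc : ((univ : Finset (ZMod n)).card : ℝ) = n := by
    rw [card_univ, ZMod.card]
  have e : ∑ i, LS tau (h i) (ka i) (la i) =
      ∑ i, h i ^ 3 * la i * (1 + ka i ^ 2 + la i ^ 2 * tau ^ 2 / 3)
      - 3 * (1 + tau ^ 2 / 3) / 2 * ∑ i, h i ^ 2 * la i
      + qS tau * ∑ i, omS tau (ka i) (la i) + n * rS tau := by
    unfold LS
    rw [sum_add_distrib, sum_add_distrib, sum_sub_distrib, sum_const,
      nsmul_eq_mul, hc, mul_sum, mul_sum]
    congr 3
    apply sum_congr rfl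
    intro i _
    ring
  rw [e, hs, ho]
  unfold rS
  rw [← hat]
  ring

private theorem sum_vS {n : ℕ} [NeZero n] {tau : ℝ} (hat : n * Real.arctan tau = Real.pi)
    {ka la : ZMod n → ℝ} (ho : ∑ i, omS tau (ka i) (la i) = 2 * Real.pi) :
    ∑ i, vS tau (ka i) (la i) = 0 := by
  have hc : ((univ : Finset (ZMod n)).card : ℝ) = n := by
    rw [card_univ, ZMod.card]
  unfold vS
  rw [← mul_sum, sum_sub_distrib, ← sum_div, ho, sum_const, nsmul_eq_mul, hc, hat]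
  ring

private theorem sum_T3 {n : ℕ} [NeZero n] {tau : ℝ} (hat : n * Real.arctan tau = Real.pi)
    {h ka la : ZMod n → ℝ} (hs : ∑ i, h i ^ 2 * la i = n)
    (ho : ∑ i, omS tau (ka i) (la i) = 2 * Real.pi) :
    ∑ i, T3 tau (h i) (ka i) (la i) = ∑ i, h i ^ 3 * la i ^ 3 - n := by
  have hc : ((univ : Finset (ZMod n)).card : ℝ) = n := by
    rw [card_univ, ZMod.card]
  unfold T3
  rw [sum_sub_distrib, sum_sub_distrib, sum_sub_distrib, ← mul_sum, ← mul_sum, sum_sub_distrib,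
    sum_vS hat ho, hs, sum_const, nsmul_eq_mul, hc]
  ring

private theorem sum_YS {n : ℕ} [NeZero n] {tau : ℝ} (hat : n * Real.arctan tau = Real.pi)
    {h ka la : ZMod n → ℝ} (hla : ∀ i, 0 < la i) (hs : ∑ i, h i ^ 2 * la i = n)
    (ho : ∑ i, omS tau (ka i) (la i) = 2 * Real.pi) (ab d f ga m1 m2 : ℝ) :
    ∑ i, h i ^ 2 * la i * (ab + ka i ^ 2 * ga + la i ^ 2 * f + (1 + ka i ^ 2) ^ 2 * d / la i ^ 2)
      - ∑ i, h i ^ 3 * la i * ((1 + ka i ^ 2) * m1 + la i ^ 2 * m2) =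
    ∑ i, YS tau d f ga m1 m2 (h i) (ka i) (la i) + n * (ab + d + f - m1 - m2) := by
  have h1 := sum_LS hat hs ho
  have h2 := sum_T3 hat hs ho
  have h3 := sum_vS hat ho (ka := ka) (la := la)
  have e : ∀ i, h i ^ 2 * la i * (ab + ka i ^ 2 * ga + la i ^ 2 * f
        + (1 + ka i ^ 2) ^ 2 * d / la i ^ 2)
      - h i ^ 3 * la i * ((1 + ka i ^ 2) * m1 + la i ^ 2 * m2) =
      YS tau d f ga m1 m2 (h i) (ka i) (la i)
        + (ab + d + f) * (h i ^ 2 * la i) - 2 * (d - f) * vS tau (ka i) (la i)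
        + m1 * (LS tau (h i) (ka i) (la i)
          - h i ^ 3 * la i * (1 + ka i ^ 2 + la i ^ 2 * tau ^ 2 / 3))
        - (m1 * tau ^ 2 / 3 - m2) * (T3 tau (h i) (ka i) (la i) - h i ^ 3 * la i ^ 3) := by
    intro i
    have := (hla i).ne'
    unfold YS TQ TR
    field_simp
    ring
  rw [← sum_sub_distrib, sum_congr rfl fun i _ => e i, sum_sub_distrib, sum_add_distrib,
    sum_sub_distrib, sum_add_distrib, ← mul_sum, ← mul_sum, ← mul_sum, ← mul_sum,
    sum_sub_distrib, sum_sub_distrib, h1, h2, h3, hs]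
  ring

/-- The scalar theorem in normalised form. -/
theorem exists_theta {n : ℕ} [NeZero n] {tau : ℝ} (h0 : 0 < tau) (h1 : tau ^ 2 ≤ 0.52787)
    (hat : n * Real.arctan tau = Real.pi) {D : ℝ} (hD0 : 0 < D)
    (hD1 : 11.7 * D ≤ tau ^ 2) (hD2 : n * D ≤ 9 / 10 * rS tau)
    {ab d f ga m1 m2 : ℝ} (hab : 0 ≤ ab) (hd : 0 ≤ d) (hf : 0 ≤ f)
    (hm1 : 0 ≤ m1) (hm2 : 0 ≤ m2) (hga : ga ≤ 2 * ab + d + f) (hS : ab + d + f ≤ 1 + m1 + m2)
    (hm : m1 + m2 ≤ 0.391)
    {h ka la : ZMod n → ℝ} (hh : ∀ i, 0 < h i) (hla : ∀ i, 0 < la i)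
    (hs : ∑ i, h i ^ 2 * la i = n)
    (ho : ∑ i, omS tau (ka i) (la i) = 2 * Real.pi)
    (hL0 : ∀ i, 0 ≤ LS tau (h i) (ka i) (la i)) :
    ∃ th : ℝ, n * (1 + tau ^ 2 / 3 + D)
      - ∑ i, h i ^ 3 * la i * (1 + ka i ^ 2 + la i ^ 2 * tau ^ 2 / 3)
      - 2 * th * D * ∑ i, h i ^ 3 * la i ^ 3
      + th ^ 2 * D * (∑ i, h i ^ 2 * la i * (ab + ka i ^ 2 * ga + la i ^ 2 * f
          + (1 + ka i ^ 2) ^ 2 * d / la i ^ 2)
        - ∑ i, h i ^ 3 * la i * ((1 + ka i ^ 2) * m1 + la i ^ 2 * m2)) ≤ 0 := by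
  have e1 := sum_LS hat hs ho
  have e2 := sum_T3 hat hs ho
  have e3 := sum_YS hat hla hs ho ab d f ga m1 m2
  have hn : (0 : ℝ) < n := by
    have := NeZero.pos n
    exact_mod_cast this
  set SL := ∑ i, LS tau (h i) (ka i) (la i) with hSL
  set ST := ∑ i, T3 tau (h i) (ka i) (la i) with hST
  set SY := ∑ i, YS tau d f ga m1 m2 (h i) (ka i) (la i) with hSY
  rw [e3]
  have hSL0 : 0 ≤ SL := sum_nonneg fun i _ => hL0 i
  have hI : ∑ i, h i ^ 3 * la i * (1 + ka i ^ 2 + la i ^ 2 * tau ^ 2 / 3) =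
      SL + n * (1 + tau ^ 2 / 3) := by linarith
  have hC : ∑ i, h i ^ 3 * la i ^ 3 = ST + n := by linarith
  rw [hI, hC]
  by_cases hg : n * D ≤ SL
  · refine ⟨0, ?_⟩
    nlinarith
  · push Not at hg
    set th := 1 - SL / (n * D) with hth
    have hnD : 0 < n * D := by positivity
    have hth1 : SL = (1 - th) * (n * D) := by
      rw [hth]
      field_simp
      ring
    have ht0 : 0 ≤ th := by
      rw [hth, sub_nonneg, div_le_one hnD]
      exact hg.le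
    have ht1 : th ≤ 1 := by
      rw [hth]
      have : 0 ≤ SL / (n * D) := by positivity
      linarith
    refine ⟨th, ?_⟩
    have hside : 0 ≤ ∑ i, (LS tau (h i) (ka i) (la i) + 2 * D * T3 tau (h i) (ka i) (la i)
        - D * th * YS tau d f ga m1 m2 (h i) (ka i) (la i)) := by
      apply sum_nonneg
      intro i _
      apply side_ineq h0 h1 hD0 hD1 hab hd hf hm1 hm2 hga hS hm (hh i) (hla i) ht0 ht1
      have h3 : LS tau (h i) (ka i) (la i) ≤ SL :=
        single_le_sum (f := fun i => LS tau (h i) (ka i) (la i)) (fun j _ => hL0 j) (mem_univ i)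
      calc _ ≤ SL := h3
        _ = (1 - th) * (n * D) := hth1
        _ ≤ _ := mul_le_mul_of_nonneg_left hD2 (by linarith)
    rw [sum_sub_distrib, sum_add_distrib, ← mul_sum, ← mul_sum] at hside
    rw [← hSL, ← hST, ← hSY] at hside
    have h5 : th ^ 2 * D * (n * (ab + d + f - m1 - m2)) ≤ th ^ 2 * D * (n * 1) := by
      apply mul_le_mul_of_nonneg_left _ (by positivity)
      apply mul_le_mul_of_nonneg_left _ hn.le
      linarith
    have h6 : 0 ≤ th * (SL + 2 * D * ST - D * th * SY) := mul_nonneg ht0 hside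
    have h7 : SL = (1 - th) * (n * D) := hth1
    nlinarith [h5, h6, h7]

end Pool.Agent.NGN
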